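import Pool.Agent.K1H28.ZO.Zero

/-!
# Reduction of three functions to one set
-/

set_option autoImplicit false
set_option linter.unusedSectionVars false

open MeasureTheory Filter Topology Finset
open scoped ENNReal

namespace Pool.Agent.K1H28.ZO

/-- convergence for all functions -/
def Q1 (ν : ℕ → ℕ) : Prop := ∀ (X : Type) [MeasurableSpace X] (μ : Measure X) [IsProbabilityMeasure μ]
  (T : X → X), MeasurePreserving T μ μ → ∀ f g h : X → ℝ, MemLp f ⊤ μ → MemLp g ⊤ μ → MemLp h ⊤ μ →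
    ∀ᵐ x ∂μ, Cv (av ν T f g h x)

/-- the indicator function -/
noncomputable def ind {X : Type*} (A : Set X) : X → ℝ := A.indicator fun _ => 1

/-- convergence for triples of sets -/
def Trip (ν : ℕ → ℕ) : Prop := ∀ (X : Type) [MeasurableSpace X] (μ : Measure X) [IsProbabilityMeasure μ]
  (T : X → X), MeasurePreserving T μ μ → ∀ A B C : Set X, MeasurableSet A → MeasurableSet B →
    MeasurableSet C → ∀ᵐ x ∂μ, Cv (av ν T (ind A) (ind B) (ind C) x)

/-- convergence for sets -/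
def DSet (ν : ℕ → ℕ) : Prop := ∀ (X : Type) [MeasurableSpace X] (μ : Measure X) [IsProbabilityMeasure μ]
  (T : X → X), MeasurePreserving T μ μ → ∀ A : Set X, MeasurableSet A →
    ∀ᵐ x ∂μ, Cv (av ν T (ind A) (ind A) (ind A) x)

lemma ind_nonneg {X : Type*} (A : Set X) (x : X) : 0 ≤ ind A x := by
  unfold ind
  exact Set.indicator_nonneg (fun _ _ => zero_le_one) x

lemma ind_le_one {X : Type*} (A : Set X) (x : X) : ind A x ≤ 1 := by
  unfold ind
  by_cases h : x ∈ A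
  · rw [Set.indicator_of_mem h]
  · rw [Set.indicator_of_notMem h]; exact zero_le_one

/-- the function is approximated by finite sums -/
noncomputable def stp {X : Type*} (f : X → ℝ) (e : ℝ) (s : Finset ℤ) (x : X) : ℝ :=
  ∑ j ∈ s, ((j : ℝ) * e) * ind {y | ⌊f y / e⌋ = j} x

lemma stp_eq {X : Type*} {f : X → ℝ} {e B : ℝ} (he : 0 < e) (hf : ∀ x, |f x| ≤ B) (x : X) :
    stp f e (Icc ⌊-B / e⌋ ⌊B / e⌋) x = ⌊f x / e⌋ * e := by
  unfold stp
  rw [Finset.sum_eq_single ⌊f x / e⌋]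
  · have : ind {y | ⌊f y / e⌋ = ⌊f x / e⌋} x = 1 := by
      unfold ind
      rw [Set.indicator_of_mem]
      exact rfl
    rw [this, mul_one]
  · intro j _ hj
    have : ind {y | ⌊f y / e⌋ = j} x = 0 := by
      unfold ind
      rw [Set.indicator_of_notMem]
      exact fun h => hj h.symm
    rw [this, mul_zero]
  · intro h
    exfalso
    apply h
    rw [Finset.mem_Icc]
    have h1 := abs_le.1 (hf x)
    exact ⟨Int.floor_mono (div_le_div_of_nonneg_right h1.1 he.le),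
      Int.floor_mono (div_le_div_of_nonneg_right h1.2 he.le)⟩

lemma stp_close {X : Type*} {f : X → ℝ} {e B : ℝ} (he : 0 < e) (hf : ∀ x, |f x| ≤ B) (x : X) :
    |f x - stp f e (Icc ⌊-B / e⌋ ⌊B / e⌋) x| ≤ e := by
  rw [stp_eq he hf]
  have h1 := Int.floor_le (f x / e)
  have h2 := (Int.lt_floor_add_one (f x / e)).le
  rw [le_div_iff₀ he] at h1
  rw [div_le_iff₀ he] at h2
  rw [abs_le]
  constructor <;> linarith

lemma av_sum1 {X : Type*} {ν : ℕ → ℕ} (T : X → X) (s : Finset ℤ) (c : ℤ → ℝ) (u : ℤ → X → ℝ) (g h : X → ℝ)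
    (x : X) (N : ℕ) : av ν T (fun y => ∑ j ∈ s, c j * u j y) g h x N =
      ∑ j ∈ s, c j * av ν T (u j) g h x N := by
  unfold av
  simp only [Finset.mul_sum, Finset.sum_mul]
  rw [Finset.sum_comm]
  exact Finset.sum_congr rfl fun _ _ => Finset.sum_congr rfl fun _ _ => by ring

lemma av_sum2 {X : Type*} {ν : ℕ → ℕ} (T : X → X) (s : Finset ℤ) (c : ℤ → ℝ) (u : ℤ → X → ℝ) (g h : X → ℝ)
    (x : X) (N : ℕ) : av ν T g (fun y => ∑ j ∈ s, c j * u j y) h x N =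
      ∑ j ∈ s, c j * av ν T g (u j) h x N := by
  unfold av
  simp only [Finset.mul_sum, Finset.sum_mul]
  rw [Finset.sum_comm]
  exact Finset.sum_congr rfl fun _ _ => Finset.sum_congr rfl fun _ _ => by ring

lemma av_sum3 {X : Type*} {ν : ℕ → ℕ} (T : X → X) (s : Finset ℤ) (c : ℤ → ℝ) (u : ℤ → X → ℝ) (g h : X → ℝ)
    (x : X) (N : ℕ) : av ν T g h (fun y => ∑ j ∈ s, c j * u j y) x N =
      ∑ j ∈ s, c j * av ν T g h (u j) x N := by
  unfold av
  simp only [Finset.mul_sum]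
  rw [Finset.sum_comm]
  exact Finset.sum_congr rfl fun _ _ => Finset.sum_congr rfl fun _ _ => by ring

/-- an essentially bounded function has a bounded measurable version -/
lemma bdd_version {X : Type*} [MeasurableSpace X] {μ : Measure X} {f : X → ℝ} (hf : MemLp f ⊤ μ) :
    ∃ f' : X → ℝ, Measurable f' ∧ (∃ B, 0 ≤ B ∧ ∀ x, |f' x| ≤ B) ∧ f =ᵐ[μ] f' := by
  have hm := hf.aestronglyMeasurable
  set B : ℝ := (eLpNorm f ⊤ μ).toReal with hB
  have hb : ∀ᵐ x ∂μ, |f x| ≤ B := by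
    have h1 : eLpNormEssSup f μ ≠ ⊤ := by
      have := hf.eLpNorm_ne_top
      rwa [eLpNorm_exponent_top] at this
    filter_upwards [ae_le_eLpNormEssSup (f := f) (μ := μ)] with x hx
    rw [hB, eLpNorm_exponent_top, ← Real.norm_eq_abs, ← toReal_enorm]
    exact ENNReal.toReal_mono h1 hx
  have hB0 : 0 ≤ B := ENNReal.toReal_nonneg
  refine ⟨fun x => max (-B) (min B (hm.mk f x)), ?_, ⟨B, hB0, fun x => ?_⟩, ?_⟩
  · exact measurable_const.max (measurable_const.min hm.stronglyMeasurable_mk.measurable)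
  · rw [abs_le]
    refine ⟨le_max_left _ _, max_le (by linarith) (min_le_left _ _)⟩
  · filter_upwards [hb, hm.ae_eq_mk] with x h1 h2
    rw [← h2]
    have h3 := abs_le.1 h1
    rw [min_eq_right h3.2, max_eq_right h3.1]

theorem q1_of_trip {ν : ℕ → ℕ} (H : Trip ν) : Q1 ν := by
  intro X _ μ _ T hT f₀ g₀ h₀ hf₀ hg₀ hh₀
  obtain ⟨f, hf, ⟨Bf, hBf0, hBf⟩, ef⟩ := bdd_version hf₀
  obtain ⟨g, hg, ⟨Bg, hBg0, hBg⟩, eg⟩ := bdd_version hg₀
  obtain ⟨h, hh, ⟨Bh, hBh0, hBh⟩, eh⟩ := bdd_version hh₀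
  set B : ℝ := max Bf (max Bg Bh) with hB
  have b1 : ∀ x, |f x| ≤ B := fun x => (hBf x).trans (le_max_left _ _)
  have b2 : ∀ x, |g x| ≤ B := fun x => (hBg x).trans ((le_max_left _ _).trans (le_max_right _ _))
  have b3 : ∀ x, |h x| ≤ B := fun x => (hBh x).trans ((le_max_right _ _).trans (le_max_right _ _))
  have hB0 : 0 ≤ B := hBf0.trans (le_max_left _ _)
  have hlev : ∀ (u : X → ℝ), Measurable u → ∀ (e : ℝ) (j : ℤ), MeasurableSet {y | ⌊u y / e⌋ = j} := by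
    intro u hu e j
    exact (Int.measurable_floor.comp (hu.div_const e)) (measurableSet_singleton j)
  have hall : ∀ᵐ x ∂μ, ∀ (m : ℕ) (j k l : ℤ), Cv (av ν T (ind {y | ⌊f y / (1 / ((m : ℝ) + 1))⌋ = j})
      (ind {y | ⌊g y / (1 / ((m : ℝ) + 1))⌋ = k}) (ind {y | ⌊h y / (1 / ((m : ℝ) + 1))⌋ = l}) x) := by
    rw [ae_all_iff]; intro m
    rw [ae_all_iff]; intro j
    rw [ae_all_iff]; intro k
    rw [ae_all_iff]; intro l
    exact H X μ T hT _ _ _ (hlev f hf _ j) (hlev g hg _ k) (hlev h hh _ l)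
  filter_upwards [hall, av_congr_ae (ν := ν) hT ef eg eh] with x hx hxe
  rw [hxe]
  refine cv_of_close fun ε hε => ?_
  obtain ⟨m, hm⟩ := exists_nat_one_div_lt (show 0 < min 1 (ε / (3 * (B + 1) ^ 2 + 1)) by positivity)
  set e : ℝ := 1 / ((m : ℝ) + 1) with he
  have he0 : 0 < e := by positivity
  have he1 : e < 1 := hm.trans_le (min_le_left _ _)
  have he2 : e < ε / (3 * (B + 1) ^ 2 + 1) := hm.trans_le (min_le_right _ _)
  refine ⟨av ν T (stp f e (Icc ⌊-B / e⌋ ⌊B / e⌋)) (stp g e (Icc ⌊-B / e⌋ ⌊B / e⌋))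
    (stp h e (Icc ⌊-B / e⌋ ⌊B / e⌋)) x, ?_, ?_⟩
  · have e1 : av ν T (stp f e (Icc ⌊-B / e⌋ ⌊B / e⌋)) (stp g e (Icc ⌊-B / e⌋ ⌊B / e⌋))
        (stp h e (Icc ⌊-B / e⌋ ⌊B / e⌋)) x = fun N => ∑ j ∈ Icc ⌊-B / e⌋ ⌊B / e⌋, ((j : ℝ) * e) *
          ∑ k ∈ Icc ⌊-B / e⌋ ⌊B / e⌋, ((k : ℝ) * e) * ∑ l ∈ Icc ⌊-B / e⌋ ⌊B / e⌋, ((l : ℝ) * e) *
            av ν T (ind {y | ⌊f y / e⌋ = j}) (ind {y | ⌊g y / e⌋ = k}) (ind {y | ⌊h y / e⌋ = l}) x N := by
      funext N
      have a1 := av_sum1 (ν := ν) T (Icc ⌊-B / e⌋ ⌊B / e⌋) (fun j => (j : ℝ) * e)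
        (fun j => ind {y | ⌊f y / e⌋ = j}) (stp g e (Icc ⌊-B / e⌋ ⌊B / e⌋))
        (stp h e (Icc ⌊-B / e⌋ ⌊B / e⌋)) x N
      refine a1.trans (Finset.sum_congr rfl fun j _ => ?_)
      have a2 := av_sum2 (ν := ν) T (Icc ⌊-B / e⌋ ⌊B / e⌋) (fun j => (j : ℝ) * e)
        (fun j => ind {y | ⌊g y / e⌋ = j}) (ind {y | ⌊f y / e⌋ = j})
        (stp h e (Icc ⌊-B / e⌋ ⌊B / e⌋)) x N
      congr 1
      refine a2.trans (Finset.sum_congr rfl fun k _ => ?_)
      congr 1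
      exact av_sum3 (ν := ν) T (Icc ⌊-B / e⌋ ⌊B / e⌋) (fun j => (j : ℝ) * e)
        (fun j => ind {y | ⌊h y / e⌋ = j}) (ind {y | ⌊f y / e⌋ = j}) (ind {y | ⌊g y / e⌋ = k}) x N
    rw [e1]
    exact cv_sum _ fun j _ => cv_const_mul _ (cv_sum _ fun k _ => cv_const_mul _
      (cv_sum _ fun l _ => cv_const_mul _ (hx m j k l)))
  · intro N
    have hs : ∀ (u : X → ℝ), (∀ x, |u x| ≤ B) → ∀ x, |stp u e (Icc ⌊-B / e⌋ ⌊B / e⌋) x| ≤ B + 1 := by
      intro u hu x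
      have h1 := stp_close he0 hu x
      have h2 := abs_le.1 h1
      have h3 := abs_le.1 (hu x)
      rw [abs_le]
      constructor <;> linarith
    have hB1 : ∀ (u : X → ℝ), (∀ x, |u x| ≤ B) → ∀ x, |u x| ≤ B + 1 := fun u hu x =>
      (hu x).trans (by linarith)
    refine (av_close (by linarith : (0 : ℝ) ≤ B + 1) he0.le (fun n => hs f b1 _) (fun n => hB1 g b2 _)
      (fun n => hs g b2 _) (fun n => hB1 h b3 _) (fun n => stp_close he0 b1 _)
      (fun n => stp_close he0 b2 _) (fun n => stp_close he0 b3 _) N).trans ?_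
    rw [lt_div_iff₀ (by positivity)] at he2
    nlinarith [sq_nonneg (B + 1)]

end Pool.Agent.K1H28.ZO
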