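import Pool.Agent.K1H28.ZO.Av

/-!
# The zero-one law
-/

set_option autoImplicit false
set_option linter.unusedSectionVars false

open MeasureTheory Filter Topology Finset
open scoped ENNReal

namespace Pool.Agent.K1H28.ZO

section Baire

variable {X : Type*} [MeasurableSpace X] {μ : Measure X} [IsProbabilityMeasure μ]
  {E : Type*} [PseudoMetricSpace E]

lemma osc_measurableSet {F : X → ℕ → ℝ} (hF : ∀ N, Measurable fun x => F x N) (δ : ℝ) :
    MeasurableSet {x | Osc (F x) δ} := by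
  have e : {x | Osc (F x) δ} = ⋂ N : ℕ, ⋃ p : ℕ, ⋃ q : ℕ,
      {x | N ≤ p ∧ N ≤ q ∧ δ < |F x p - F x q|} := by
    ext x
    simp only [Osc, Set.mem_ofPred_eq, Set.mem_iInter, Set.mem_iUnion]
  rw [e]
  refine MeasurableSet.iInter fun N => MeasurableSet.iUnion fun p => MeasurableSet.iUnion fun q => ?_
  by_cases h : N ≤ p ∧ N ≤ q
  · have e : {x | N ≤ p ∧ N ≤ q ∧ δ < |F x p - F x q|} = {x | δ < |F x p - F x q|} := by
      ext x
      exact ⟨fun h' => h'.2.2, fun h' => ⟨h.1, h.2, h'⟩⟩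
    rw [e]
    exact measurableSet_lt measurable_const ((hF p).sub (hF q)).abs
  · have e : {x | N ≤ p ∧ N ≤ q ∧ δ < |F x p - F x q|} = ∅ := by
      ext x
      simp only [Set.mem_ofPred_eq, Set.mem_empty_iff_false, iff_false]
      exact fun h' => h ⟨h'.1, h'.2.1⟩
    rw [e]
    exact MeasurableSet.empty

/-- The Baire category argument. -/
theorem baire (Φ : E → X → ℕ → ℝ) (hm : ∀ e N, Measurable fun x => Φ e x N)
    (lip : ∀ e, ∃ C : ℝ, 0 ≤ C ∧ ∀ e', dist e' e ≤ 1 →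
      ∀ᵐ x ∂μ, ∀ N, |Φ e x N - Φ e' x N| ≤ C * dist e' e)
    (D : ℕ → Set X) (hD : ∀ k, MeasurableSet (D k))
    (dens : ∀ k e, ∀ ε : ℝ, 0 < ε → ∃ e', dist e' e < ε ∧ ∀ᵐ x ∂μ, x ∈ D k → ¬ Cv (Φ e' x)) :
    {e | ∀ᵐ x ∂μ, x ∈ ⋃ k, D k → ¬ Cv (Φ e x)} ∈ residual E := by
  set V : ℕ → ℕ → Set E := fun k j => {e | ∃ δ : ℝ, 0 < δ ∧
    μ {x | x ∈ D k ∧ ¬ Osc (Φ e x) δ} < ((j : ℝ≥0∞) + 1)⁻¹} with hV
  have hopen : ∀ k j, IsOpen (V k j) := by
    intro k j
    rw [Metric.isOpen_iff]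
    rintro e ⟨δ, hδ, hμ⟩
    obtain ⟨C, hC, hlip⟩ := lip e
    refine ⟨min 1 (δ / (4 * (C + 1))), lt_min one_pos (by positivity), fun e' he' => ?_⟩
    rw [Metric.mem_ball] at he'
    have h1 : dist e' e ≤ 1 := (he'.trans_le (min_le_left _ _)).le
    have h2 : dist e' e ≤ δ / (4 * (C + 1)) := (he'.trans_le (min_le_right _ _)).le
    refine ⟨δ / 2, half_pos hδ, lt_of_le_of_lt (measure_mono_ae ?_) hμ⟩
    filter_upwards [hlip e' h1] with x hx hx'
    refine ⟨hx'.1, fun ho => hx'.2 ?_⟩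
    have h3 : C * dist e' e ≤ δ / 4 := by
      calc C * dist e' e ≤ (C + 1) * (δ / (4 * (C + 1))) :=
            mul_le_mul (by linarith) h2 dist_nonneg (by linarith)
        _ = δ / 4 := by field_simp
    have h4 := osc_close ho (η := δ / 4) fun N => (hx N).trans h3
    exact osc_mono (by linarith) h4
  have hdense : ∀ k j, Dense (V k j) := by
    intro k j
    rw [Metric.dense_iff]
    intro e r hr
    obtain ⟨e', he', hae⟩ := dens k e r hr
    refine ⟨e', by rwa [Metric.mem_ball], ?_⟩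
    set S : ℕ → Set X := fun n => {x | x ∈ D k ∧ ¬ Osc (Φ e' x) (1 / ((n : ℝ) + 1))} with hS
    have hSm : ∀ n, NullMeasurableSet (S n) μ := fun n =>
      ((hD k).inter (osc_measurableSet (hm e') _).compl).nullMeasurableSet
    have hanti : Antitone S := by
      intro a b hab x hx
      refine ⟨hx.1, fun ho => hx.2 (osc_mono ?_ ho)⟩
      apply one_div_le_one_div_of_le (by positivity)
      have : (a : ℝ) ≤ b := by exact_mod_cast hab
      linarith
    have h0 : μ (⋂ n, S n) = 0 := by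
      refine measure_mono_null ?_ (ae_iff.1 hae)
      intro x hx
      rw [Set.mem_iInter] at hx
      simp only [Set.mem_ofPred_eq]
      push Not
      refine ⟨(hx 0).1, ?_⟩
      by_contra hc
      obtain ⟨δ, hδ, ho⟩ := osc_of_not_cv hc
      obtain ⟨n, hn⟩ := exists_nat_one_div_lt hδ
      exact (hx n).2 (osc_mono hn.le ho)
    have ht := tendsto_measure_iInter_atTop hSm hanti ⟨0, measure_ne_top _ _⟩
    rw [h0] at ht
    have hpos : (0 : ℝ≥0∞) < ((j : ℝ≥0∞) + 1)⁻¹ := by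
      rw [ENNReal.inv_pos]
      exact ENNReal.add_ne_top.2 ⟨ENNReal.natCast_ne_top _, ENNReal.one_ne_top⟩
    obtain ⟨n, hn⟩ := (ht.eventually (gt_mem_nhds hpos)).exists
    exact ⟨1 / ((n : ℝ) + 1), by positivity, hn⟩
  have hres : (⋂ k, ⋂ j, V k j) ∈ residual E := by
    rw [countable_iInter_mem]
    intro k
    rw [countable_iInter_mem]
    exact fun j => residual_of_dense_open (hopen k j) (hdense k j)
  refine mem_of_superset hres fun e he => ?_
  simp only [Set.mem_iInter] at he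
  have hk : ∀ k, ∀ᵐ x ∂μ, x ∈ D k → ¬ Cv (Φ e x) := by
    intro k
    rw [ae_iff]
    by_contra hne
    have hpos : 0 < μ {x | ¬(x ∈ D k → ¬ Cv (Φ e x))} := pos_iff_ne_zero.2 hne
    have h1 : ∃ j : ℕ, ((j : ℝ≥0∞) + 1)⁻¹ ≤ μ {x | ¬(x ∈ D k → ¬ Cv (Φ e x))} := by
      obtain ⟨j, hj⟩ := ENNReal.exists_inv_nat_lt hne
      refine ⟨j, le_trans ?_ hj.le⟩
      exact ENNReal.inv_le_inv.2 (self_le_add_right _ _)
    obtain ⟨j, hj⟩ := h1
    obtain ⟨δ, hδ, hlt⟩ := he k j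
    refine absurd (lt_of_le_of_lt (hj.trans (measure_mono ?_)) hlt) (lt_irrefl _)
    intro x hx
    simp only [Set.mem_ofPred_eq] at hx
    push Not at hx
    exact ⟨hx.1, fun ho => not_cv_of_osc hδ ho hx.2⟩
  have := (ae_all_iff (μ := μ)).2 hk
  filter_upwards [this] with x hx hU
  obtain ⟨k, hxk⟩ := Set.mem_iUnion.1 hU
  exact hx k hxk

end Baire

section Law

variable {ν : ℕ → ℕ} {X : Type*} [MeasurableSpace X] {μ : Measure X} [IsProbabilityMeasure μ]

lemma union_conull {T : X → X} (hT : Ergodic T μ) {D : Set X} (hD : MeasurableSet D)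
    (h0 : μ D ≠ 0) : ∀ᵐ x ∂μ, x ∈ ⋃ k : ℕ, T^[k] ⁻¹' D := by
  have hTm : Measurable T := hT.toMeasurePreserving.measurable
  have hU : MeasurableSet (⋃ k : ℕ, T^[k] ⁻¹' D) := MeasurableSet.iUnion fun k => hTm.iterate k hD
  have hsub : T ⁻¹' (⋃ k : ℕ, T^[k] ⁻¹' D) ⊆ ⋃ k : ℕ, T^[k] ⁻¹' D := by
    intro x hx
    rw [Set.mem_preimage, Set.mem_iUnion] at hx
    obtain ⟨k, hk⟩ := hx
    refine Set.mem_iUnion.2 ⟨k + 1, ?_⟩
    rw [Set.mem_preimage, Function.iterate_succ_apply]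
    exact hk
  rcases hT.ae_empty_or_univ_of_preimage_ae_le hU.nullMeasurableSet hsub.eventuallyLE with h | h
  · exfalso
    apply h0
    refine measure_mono_null ?_ (ae_eq_empty.1 h)
    intro x hx
    exact Set.mem_iUnion.2 ⟨0, hx⟩
  · filter_upwards [h] with x hx
    exact hx.mpr trivial

lemma linf_bound (F : Lp ℝ ⊤ μ) : ∀ᵐ x ∂μ, |F x| ≤ ‖F‖ := by
  filter_upwards [ae_le_eLpNormEssSup (f := (F : X → ℝ)) (μ := μ)] with x hx
  have h1 : ‖F‖ = (eLpNormEssSup (F : X → ℝ) μ).toReal := by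
    rw [Lp.norm_def, eLpNorm_exponent_top]
  have h2 : eLpNormEssSup (F : X → ℝ) μ ≠ ⊤ := by
    have := Lp.eLpNorm_ne_top F
    rwa [eLpNorm_exponent_top] at this
  rw [h1, ← Real.norm_eq_abs, ← toReal_enorm]
  exact ENNReal.toReal_mono h2 hx

lemma linf_meas (F : Lp ℝ ⊤ μ) : Measurable (F : X → ℝ) := (Lp.stronglyMeasurable F).measurable

lemma linf_sub (F G : Lp ℝ ⊤ μ) : ∀ᵐ x ∂μ, |F x - G x| ≤ dist F G := by
  filter_upwards [linf_bound (F - G), Lp.coeFn_sub F G] with x h1 h2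
  rw [dist_eq_norm]
  rwa [h2] at h1

lemma av_congr_ae {T : X → X} (hT : MeasurePreserving T μ μ) {f g h f' g' h' : X → ℝ}
    (hf : f =ᵐ[μ] f') (hg : g =ᵐ[μ] g') (hh : h =ᵐ[μ] h') :
    ∀ᵐ x ∂μ, av ν T f g h x = av ν T f' g' h' x := by
  filter_upwards [ae_orbit hT hf, ae_orbit hT hg, ae_orbit hT hh] with x h1 h2 h3
  funext N
  unfold av
  simp only [h1, h2, h3]

lemma lip_lp {T : X → X} (hT : MeasurePreserving T μ μ) (F G H F' G' H' : Lp ℝ ⊤ μ) {B η : ℝ}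
    (hB : 0 ≤ B) (hF' : ‖F'‖ ≤ B) (hG : ‖G‖ ≤ B) (hG' : ‖G'‖ ≤ B) (hH : ‖H‖ ≤ B)
    (h1 : dist F F' ≤ η) (h2 : dist G G' ≤ η) (h3 : dist H H' ≤ η) :
    ∀ᵐ x ∂μ, ∀ N, |av ν T F G H x N - av ν T F' G' H' x N| ≤ 3 * B ^ 2 * η := by
  filter_upwards [ae_orbit hT (linf_bound F'), ae_orbit hT (linf_bound G), ae_orbit hT (linf_bound G'),
    ae_orbit hT (linf_bound H), ae_orbit hT (linf_sub F F'), ae_orbit hT (linf_sub G G'),
    ae_orbit hT (linf_sub H H')] with x a1 a2 a3 a4 a5 a6 a7 N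
  exact av_close hB (dist_nonneg.trans h1) (fun n => (a1 n).trans hF') (fun n => (a2 n).trans hG)
    (fun n => (a3 n).trans hG') (fun n => (a4 n).trans hH) (fun n => (a5 n).trans h1)
    (fun n => (a6 n).trans h2) (fun n => (a7 n).trans h3) N

/-- a small parameter outside a null set -/
lemma exists_small {P : ℝ → Prop} (h : ∀ᵐ s ∂(volume : Measure ℝ), P s) {r : ℝ} (hr : 0 < r) :
    ∃ s : ℝ, 0 < s ∧ s < r ∧ P s := by
  have h1 : (volume : Measure ℝ) (Set.Ioo 0 r) ≠ 0 := by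
    rw [Real.volume_Ioo, sub_zero]
    exact (ENNReal.ofReal_pos.2 hr).ne'
  obtain ⟨s, hs, hP⟩ := ((frequently_ae_mem_iff.2 h1).and_eventually h).exists
  exact ⟨s, hs.1, hs.2, hP⟩

/-- the line in `L^∞` -/
noncomputable def ln (s : ℝ) (F U : Lp ℝ ⊤ μ) : Lp ℝ ⊤ μ := F + s • (U - F)

lemma ln_coe (s : ℝ) (F U : Lp ℝ ⊤ μ) :
    (ln s F U : X → ℝ) =ᵐ[μ] fun x => F x + s * (U x - F x) := by
  unfold ln
  filter_upwards [Lp.coeFn_add F (s • (U - F)), Lp.coeFn_smul s (U - F), Lp.coeFn_sub U F]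
    with x h1 h2 h3
  rw [h1, Pi.add_apply, h2, Pi.smul_apply, h3, Pi.sub_apply, smul_eq_mul]

lemma ln_dist (s : ℝ) (F U : Lp ℝ ⊤ μ) : dist (ln s F U) F = |s| * ‖U - F‖ := by
  rw [dist_eq_norm, ln, add_sub_cancel_left, norm_smul, Real.norm_eq_abs]

/-- the composition with an iterate -/
noncomputable def cmp {T : X → X} (hT : MeasurePreserving T μ μ) (k : ℕ) (U : Lp ℝ ⊤ μ) : Lp ℝ ⊤ μ :=
  Lp.compMeasurePreserving T^[k] (hT.iterate k) U

lemma cmp_coe {T : X → X} (hT : MeasurePreserving T μ μ) (k : ℕ) (U : Lp ℝ ⊤ μ) :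
    (cmp hT k U : X → ℝ) =ᵐ[μ] fun x => U (T^[k] x) :=
  Lp.coeFn_compMeasurePreserving U (hT.iterate k)

lemma line_lp {T : X → X} (hT : MeasurePreserving T μ μ) (k : ℕ) (F G H U V W : Lp ℝ ⊤ μ) :
    ∀ᵐ s ∂(volume : Measure ℝ), ∀ᵐ x ∂μ, x ∈ T^[k] ⁻¹' {x | ¬ Cv (av ν T U V W x)} →
      ¬ Cv (av ν T (ln s F (cmp hT k U)) (ln s G (cmp hT k V)) (ln s H (cmp hT k W)) x) := by
  have h1 := line_ae (ν := ν) (μ := μ) hT.measurable (linf_meas F) (linf_meas G) (linf_meas H)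
    (linf_meas (cmp hT k U)) (linf_meas (cmp hT k V)) (linf_meas (cmp hT k W))
  filter_upwards [h1] with s hs
  filter_upwards [hs, av_congr_ae hT (ln_coe s F (cmp hT k U)) (ln_coe s G (cmp hT k V))
    (ln_coe s H (cmp hT k W)), av_congr_ae hT (cmp_coe hT k U) (cmp_coe hT k V) (cmp_coe hT k W)]
    with x hx e1 e2 hx'
  rw [e1]
  apply hx
  right
  rw [e2, ← av_shift]
  exact hx'

/-- **Zero-one law.** For an ergodic map either the averages of all triples of functions in `L^∞`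
converge almost everywhere, or for a residual set of triples they diverge at almost every point. -/
theorem zero_one {T : X → X} (hT : Ergodic T μ) :
    (∀ f g h : X → ℝ, MemLp f ⊤ μ → MemLp g ⊤ μ → MemLp h ⊤ μ →
      ∀ᵐ x ∂μ, Cv (av ν T f g h x)) ∨
    {F : Lp ℝ ⊤ μ × Lp ℝ ⊤ μ × Lp ℝ ⊤ μ | ∀ᵐ x ∂μ, ¬ Cv (av ν T F.1 F.2.1 F.2.2 x)} ∈
      residual (Lp ℝ ⊤ μ × Lp ℝ ⊤ μ × Lp ℝ ⊤ μ) := by
  by_cases hall : ∀ U V W : Lp ℝ ⊤ μ, ∀ᵐ x ∂μ, Cv (av ν T U V W x)
  · left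
    intro f g h hf hg hh
    filter_upwards [hall (hf.toLp f) (hg.toLp g) (hh.toLp h), av_congr_ae hT.toMeasurePreserving
      hf.coeFn_toLp hg.coeFn_toLp hh.coeFn_toLp] with x h1 h2
    rwa [h2] at h1
  right
  push Not at hall
  obtain ⟨U, V, W, hUVW⟩ := hall
  have hTp := hT.toMeasurePreserving
  have hTm : Measurable T := hTp.measurable
  set D : Set X := {x | ¬ Cv (av ν T U V W x)} with hD
  have hDm : MeasurableSet D := (cv_measurableSet fun N =>
    av_meas hTm (linf_meas U) (linf_meas V) (linf_meas W) N).compl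
  have hD0 : μ D ≠ 0 := frequently_ae_mem_iff.1 hUVW
  have hcon := union_conull hT hDm hD0
  have hb := baire (μ := μ) (E := Lp ℝ ⊤ μ × Lp ℝ ⊤ μ × Lp ℝ ⊤ μ)
    (fun F x => av ν T F.1 F.2.1 F.2.2 x)
    (fun F N => av_meas hTm (linf_meas _) (linf_meas _) (linf_meas _) N) ?_
    (fun k => T^[k] ⁻¹' D) (fun k => hTm.iterate k hDm) ?_
  · refine mem_of_superset hb fun F hF => ?_
    filter_upwards [hF, hcon] with x h1 h2
    exact h1 h2
  · rintro ⟨F, G, H⟩
    set B : ℝ := ‖F‖ + ‖G‖ + ‖H‖ + 1 with hBd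
    have hB0 : 0 ≤ B := by positivity
    refine ⟨3 * B ^ 2, by positivity, ?_⟩
    rintro ⟨F', G', H'⟩ hd
    have d1 : dist F F' ≤ dist (F', G', H') (F, G, H) := by
      rw [dist_comm F F']; exact le_max_left _ _
    have d2 : dist G G' ≤ dist (F', G', H') (F, G, H) := by
      rw [dist_comm G G']; exact (le_max_left _ _).trans (le_max_right _ _)
    have d3 : dist H H' ≤ dist (F', G', H') (F, G, H) := by
      rw [dist_comm H H']; exact (le_max_right _ _).trans (le_max_right _ _)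
    have n1 : ‖F'‖ ≤ B := by
      have := norm_le_norm_add_norm_sub' F' F
      rw [← dist_eq_norm, dist_comm] at this
      have h2 := norm_nonneg G
      have h3 := norm_nonneg H
      linarith [d1.trans hd]
    have n2 : ‖G'‖ ≤ B := by
      have := norm_le_norm_add_norm_sub' G' G
      rw [← dist_eq_norm, dist_comm] at this
      have h2 := norm_nonneg F
      have h3 := norm_nonneg H
      linarith [d2.trans hd]
    refine lip_lp hTp F G H F' G' H' hB0 n1 ?_ n2 ?_ d1 d2 d3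
    · have h2 := norm_nonneg F
      have h3 := norm_nonneg H
      linarith
    · have h2 := norm_nonneg F
      have h3 := norm_nonneg G
      linarith
  · rintro k ⟨F, G, H⟩ ε hε
    set R : ℝ := ‖cmp hTp k U - F‖ + ‖cmp hTp k V - G‖ + ‖cmp hTp k W - H‖ + 1 with hR
    have hRp : 0 < R := by positivity
    obtain ⟨s, hs0, hs1, hs⟩ := exists_small (line_lp (ν := ν) hTp k F G H U V W) (r := ε / R) (by positivity)
    refine ⟨(ln s F (cmp hTp k U), ln s G (cmp hTp k V), ln s H (cmp hTp k W)), ?_, hs⟩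
    have hsR : s * R < ε := by rwa [lt_div_iff₀ hRp] at hs1
    have p1 := norm_nonneg (cmp hTp k U - F)
    have p2 := norm_nonneg (cmp hTp k V - G)
    have p3 := norm_nonneg (cmp hTp k W - H)
    rw [Prod.dist_eq, Prod.dist_eq]
    refine max_lt ?_ (max_lt ?_ ?_)
    · change dist (ln s F (cmp hTp k U)) F < ε
      rw [ln_dist, abs_of_pos hs0]
      nlinarith
    · change dist (ln s G (cmp hTp k V)) G < ε
      rw [ln_dist, abs_of_pos hs0]
      nlinarith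
    · change dist (ln s H (cmp hTp k W)) H < ε
      rw [ln_dist, abs_of_pos hs0]
      nlinarith

end Law

end Pool.Agent.K1H28.ZO
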