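import Pool.Agent.K1H28.ZO.Basic

/-!
# The averages along `n, 2n, 3n`
-/

set_option autoImplicit false

open MeasureTheory Filter Topology Finset

namespace Pool.Agent.K1H28.ZO

variable {X : Type*} {ν : ℕ → ℕ}

/-- the averages `(1/N) ∑_{n=1}^N f (T^n x) g (T^{2n} x) h (T^{3n} x)` for `N = ν k` -/
noncomputable def av (ν : ℕ → ℕ) (T : X → X) (f g h : X → ℝ) (x : X) (k : ℕ) : ℝ :=
  (ν k : ℝ)⁻¹ * ∑ n ∈ Icc 1 (ν k), f (T^[n] x) * g (T^[2 * n] x) * h (T^[3 * n] x)

lemma av_shift (T : X → X) (f g h : X → ℝ) (k : ℕ) (x : X) :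
    av ν T f g h (T^[k] x) =
      av ν T (fun y => f (T^[k] y)) (fun y => g (T^[k] y)) (fun y => h (T^[k] y)) x := by
  funext N
  unfold av
  congr 1
  refine Finset.sum_congr rfl fun n _ => ?_
  simp only [← Function.iterate_add_apply]
  rw [Nat.add_comm n k, Nat.add_comm (2 * n) k, Nat.add_comm (3 * n) k]

/-- the coefficients of the averages along a line -/
noncomputable def lineC (ν : ℕ → ℕ) (T : X → X) (f g h u v w : X → ℝ) (x : X) : Fin 4 → ℕ → ℝ
  | 0 => fun N => av ν T f g h x N
  | 1 => fun N => av ν T (fun y => u y - f y) g h x N + av ν T f (fun y => v y - g y) h x N +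
      av ν T f g (fun y => w y - h y) x N
  | 2 => fun N => av ν T (fun y => u y - f y) (fun y => v y - g y) h x N +
      av ν T (fun y => u y - f y) g (fun y => w y - h y) x N +
      av ν T f (fun y => v y - g y) (fun y => w y - h y) x N
  | 3 => fun N => av ν T (fun y => u y - f y) (fun y => v y - g y) (fun y => w y - h y) x N

lemma av_line (T : X → X) (f g h u v w : X → ℝ) (x : X) (s : ℝ) :
    av ν T (fun y => f y + s * (u y - f y)) (fun y => g y + s * (v y - g y))
      (fun y => h y + s * (w y - h y)) x = cub (lineC ν T f g h u v w x) s := by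
  funext N
  unfold cub
  rw [Fin.sum_univ_four]
  simp only [lineC, av, Fin.val_zero, Fin.val_one, Fin.val_two, Finset.mul_sum, ← Finset.sum_add_distrib]
  refine Finset.sum_congr rfl fun n _ => ?_
  norm_num
  ring

lemma av_line_one (T : X → X) (f g h u v w : X → ℝ) (x : X) :
    cub (lineC ν T f g h u v w x) 1 = av ν T u v w x := by
  rw [← av_line]
  congr 1 <;> · funext y; ring

lemma av_line_zero (T : X → X) (f g h u v w : X → ℝ) (x : X) :
    cub (lineC ν T f g h u v w x) 0 = av ν T f g h x := by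
  rw [← av_line]
  congr 1 <;> · funext y; ring

section Meas

variable [MeasurableSpace X] {μ : Measure X}

lemma av_meas {T : X → X} (hT : Measurable T) {f g h : X → ℝ} (hf : Measurable f)
    (hg : Measurable g) (hh : Measurable h) (N : ℕ) : Measurable (fun x => av ν T f g h x N) := by
  unfold av
  refine Measurable.const_mul (Finset.measurable_fun_sum _ fun n _ => ?_) _
  exact ((hf.comp (hT.iterate _)).mul (hg.comp (hT.iterate _))).mul (hh.comp (hT.iterate _))

lemma lineC_meas {T : X → X} (hT : Measurable T) {f g h u v w : X → ℝ} (hf : Measurable f)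
    (hg : Measurable g) (hh : Measurable h) (hu : Measurable u) (hv : Measurable v)
    (hw : Measurable w) (j : Fin 4) (N : ℕ) : Measurable (fun x => lineC ν T f g h u v w x j N) := by
  fin_cases j
  · exact av_meas hT hf hg hh N
  · exact ((av_meas hT (hu.sub hf) hg hh N).add (av_meas hT hf (hv.sub hg) hh N)).add
      (av_meas hT hf hg (hw.sub hh) N)
  · exact ((av_meas hT (hu.sub hf) (hv.sub hg) hh N).add (av_meas hT (hu.sub hf) hg (hw.sub hh) N)).add
      (av_meas hT hf (hv.sub hg) (hw.sub hh) N)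
  · exact av_meas hT (hu.sub hf) (hv.sub hg) (hw.sub hh) N

lemma cv_measurableSet {Y : Type*} [MeasurableSpace Y] {F : Y → ℕ → ℝ}
    (hF : ∀ N, Measurable fun y => F y N) : MeasurableSet {y | Cv (F y)} :=
  measurableSet_exists_tendsto (l := atTop) (f := fun N y => F y N) hF

/-- For almost every parameter the averages on the line through two triples diverge wherever the
averages of one of the two triples diverge. -/
lemma line_ae [SFinite μ] {T : X → X} (hT : Measurable T) {f g h u v w : X → ℝ} (hf : Measurable f)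
    (hg : Measurable g) (hh : Measurable h) (hu : Measurable u) (hv : Measurable v)
    (hw : Measurable w) : ∀ᵐ s ∂(volume : Measure ℝ), ∀ᵐ x ∂μ,
      (¬ Cv (av ν T f g h x) ∨ ¬ Cv (av ν T u v w x)) →
        ¬ Cv (av ν T (fun y => f y + s * (u y - f y)) (fun y => g y + s * (v y - g y))
          (fun y => h y + s * (w y - h y)) x) := by
  set B : Set (ℝ × X) := {p | (¬ Cv (av ν T f g h p.2) ∨ ¬ Cv (av ν T u v w p.2)) ∧
    Cv (cub (lineC ν T f g h u v w p.2) p.1)} with hB
  have hBm : MeasurableSet B := by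
    refine MeasurableSet.inter (MeasurableSet.union ?_ ?_) ?_
    · exact (cv_measurableSet (F := fun p : ℝ × X => av ν T f g h p.2) fun N =>
        (av_meas hT hf hg hh N).comp measurable_snd).compl
    · exact (cv_measurableSet (F := fun p : ℝ × X => av ν T u v w p.2) fun N =>
        (av_meas hT hu hv hw N).comp measurable_snd).compl
    · refine cv_measurableSet (F := fun p : ℝ × X => cub (lineC ν T f g h u v w p.2) p.1) fun N => ?_
      unfold cub
      refine Finset.measurable_fun_sum _ fun j _ => ?_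
      exact (measurable_fst.pow_const _).mul
        ((lineC_meas hT hf hg hh hu hv hw j N).comp measurable_snd)
  have h0 : (volume.prod μ) B = 0 := by
    rw [Measure.prod_apply_symm hBm]
    refine lintegral_eq_zero_of_ae_eq_zero (Eventually.of_forall fun x => ?_)
    by_cases hx : ¬ Cv (av ν T f g h x) ∨ ¬ Cv (av ν T u v w x)
    · have hfin : {s : ℝ | Cv (cub (lineC ν T f g h u v w x) s)}.Finite := by
        rcases hx with hx | hx
        · exact finite_cub (t := 0) (by rwa [av_line_zero])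
        · exact finite_cub (t := 1) (by rwa [av_line_one])
      exact (hfin.subset fun s hs => hs.2).measure_zero _
    · have : (fun s : ℝ => (s, x)) ⁻¹' B = ∅ := by
        ext s
        simp only [hB, Set.mem_preimage, Set.mem_ofPred_eq, Set.mem_empty_iff_false, iff_false]
        exact fun h => hx h.1
      change volume ((fun s : ℝ => (s, x)) ⁻¹' B) = 0
      rw [this, measure_empty]
  have h1 : ∀ᵐ p ∂(volume.prod μ), p ∉ B := by
    rw [ae_iff]
    simpa using h0
  filter_upwards [Measure.ae_ae_of_ae_prod h1] with s hs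
  filter_upwards [hs] with x hx hd hc
  rw [av_line] at hc
  exact hx ⟨hd, hc⟩

lemma ae_orbit {T : X → X} (hT : MeasurePreserving T μ μ) {p : X → Prop} (h : ∀ᵐ x ∂μ, p x) :
    ∀ᵐ x ∂μ, ∀ n : ℕ, p (T^[n] x) := by
  rw [ae_all_iff]
  exact fun n => (hT.iterate n).quasiMeasurePreserving.ae h

end Meas

lemma av_close {T : X → X} {f g h f' g' h' : X → ℝ} {B η : ℝ} (hB : 0 ≤ B) (hη : 0 ≤ η) {x : X}
    (hf' : ∀ n, |f' (T^[n] x)| ≤ B) (hg : ∀ n, |g (T^[n] x)| ≤ B) (hg' : ∀ n, |g' (T^[n] x)| ≤ B)
    (hh : ∀ n, |h (T^[n] x)| ≤ B)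
    (e1 : ∀ n, |f (T^[n] x) - f' (T^[n] x)| ≤ η) (e2 : ∀ n, |g (T^[n] x) - g' (T^[n] x)| ≤ η)
    (e3 : ∀ n, |h (T^[n] x) - h' (T^[n] x)| ≤ η) (N : ℕ) :
    |av ν T f g h x N - av ν T f' g' h' x N| ≤ 3 * B ^ 2 * η := by
  unfold av
  rw [← mul_sub, ← Finset.sum_sub_distrib, abs_mul, abs_inv, Nat.abs_cast]
  rcases Nat.eq_zero_or_pos (ν N) with h0 | h0
  · rw [h0]
    simp
    positivity
  have hN : (0 : ℝ) < (ν N : ℝ) := by exact_mod_cast h0
  rw [inv_mul_le_iff₀ hN]
  refine (Finset.abs_sum_le_sum_abs _ _).trans ?_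
  refine (Finset.sum_le_card_nsmul _ _ (3 * B ^ 2 * η) fun n _ => ?_).trans ?_
  · have e : f (T^[n] x) * g (T^[2 * n] x) * h (T^[3 * n] x) -
        f' (T^[n] x) * g' (T^[2 * n] x) * h' (T^[3 * n] x) =
        (f (T^[n] x) - f' (T^[n] x)) * g (T^[2 * n] x) * h (T^[3 * n] x) +
        f' (T^[n] x) * (g (T^[2 * n] x) - g' (T^[2 * n] x)) * h (T^[3 * n] x) +
        f' (T^[n] x) * g' (T^[2 * n] x) * (h (T^[3 * n] x) - h' (T^[3 * n] x)) := by ring
    rw [e]
    have a1 : |(f (T^[n] x) - f' (T^[n] x)) * g (T^[2 * n] x) * h (T^[3 * n] x)| ≤ η * B * B := by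
      rw [abs_mul, abs_mul]
      exact mul_le_mul (mul_le_mul (e1 _) (hg _) (abs_nonneg _) hη) (hh _) (abs_nonneg _)
        (by positivity)
    have a2 : |f' (T^[n] x) * (g (T^[2 * n] x) - g' (T^[2 * n] x)) * h (T^[3 * n] x)| ≤
        B * η * B := by
      rw [abs_mul, abs_mul]
      exact mul_le_mul (mul_le_mul (hf' _) (e2 _) (abs_nonneg _) hB) (hh _) (abs_nonneg _)
        (by positivity)
    have a3 : |f' (T^[n] x) * g' (T^[2 * n] x) * (h (T^[3 * n] x) - h' (T^[3 * n] x))| ≤
        B * B * η := by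
      rw [abs_mul, abs_mul]
      exact mul_le_mul (mul_le_mul (hf' _) (hg' _) (abs_nonneg _) hB) (e3 _) (abs_nonneg _)
        (by positivity)
    refine (abs_add_le _ _).trans ((add_le_add ((abs_add_le _ _).trans (add_le_add a1 a2)) a3).trans ?_)
    nlinarith
  · rw [Nat.card_Icc, nsmul_eq_mul]
    simp

end Pool.Agent.K1H28.ZO
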