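import Mathlib

/-!
# Convergence of sequences, oscillation, and convergence along polynomials of degree three
-/

set_option autoImplicit false

open MeasureTheory Filter Topology Finset

namespace Pool.Agent.K1H28.ZO

/-- the sequence converges -/
def Cv (a : ℕ → ℝ) : Prop := ∃ L : ℝ, Tendsto a atTop (𝓝 L)

/-- the sequence has arbitrarily late oscillations larger than `δ` -/
def Osc (a : ℕ → ℝ) (δ : ℝ) : Prop := ∀ N : ℕ, ∃ p q : ℕ, N ≤ p ∧ N ≤ q ∧ δ < |a p - a q|

lemma cv_iff_cauchy (a : ℕ → ℝ) : Cv a ↔ CauchySeq a :=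
  ⟨fun ⟨_, h⟩ => h.cauchySeq, fun h => cauchySeq_tendsto_of_complete h⟩

lemma not_cv_of_osc {a : ℕ → ℝ} {δ : ℝ} (hδ : 0 < δ) (h : Osc a δ) : ¬ Cv a := by
  rw [cv_iff_cauchy, Metric.cauchySeq_iff]
  push Not
  refine ⟨δ, hδ, fun N => ?_⟩
  obtain ⟨p, q, hp, hq, hpq⟩ := h N
  exact ⟨p, hp, q, hq, by rw [Real.dist_eq]; exact hpq.le⟩

lemma osc_of_not_cv {a : ℕ → ℝ} (h : ¬ Cv a) : ∃ δ > 0, Osc a δ := by
  rw [cv_iff_cauchy, Metric.cauchySeq_iff] at h
  push Not at h
  obtain ⟨ε, hε, h⟩ := h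
  refine ⟨ε / 2, half_pos hε, fun N => ?_⟩
  obtain ⟨p, hp, q, hq, hpq⟩ := h N
  rw [Real.dist_eq] at hpq
  exact ⟨p, q, hp, hq, by linarith⟩

lemma osc_mono {a : ℕ → ℝ} {δ δ' : ℝ} (h : δ' ≤ δ) (ho : Osc a δ) : Osc a δ' := by
  intro N
  obtain ⟨p, q, hp, hq, hpq⟩ := ho N
  exact ⟨p, q, hp, hq, h.trans_lt hpq⟩

lemma osc_close {a b : ℕ → ℝ} {δ η : ℝ} (ho : Osc a δ) (h : ∀ N, |a N - b N| ≤ η) :
    Osc b (δ - 2 * η) := by
  intro N
  obtain ⟨p, q, hp, hq, hpq⟩ := ho N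
  refine ⟨p, q, hp, hq, ?_⟩
  have h1 := abs_le.1 (h p)
  have h2 := abs_le.1 (h q)
  have h3 : |a p - a q| ≤ |b p - b q| + 2 * η := by
    have e : a p - a q = (b p - b q) + ((a p - b p) - (a q - b q)) := by ring
    rw [e]
    refine (abs_add_le _ _).trans (add_le_add le_rfl ?_)
    rw [abs_le]
    constructor <;> linarith
  linarith

lemma cv_add {a b : ℕ → ℝ} (ha : Cv a) (hb : Cv b) : Cv (fun N => a N + b N) := by
  obtain ⟨L, hL⟩ := ha
  obtain ⟨M, hM⟩ := hb
  exact ⟨L + M, hL.add hM⟩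

lemma cv_const_mul {a : ℕ → ℝ} (c : ℝ) (ha : Cv a) : Cv (fun N => c * a N) := by
  obtain ⟨L, hL⟩ := ha
  exact ⟨c * L, hL.const_mul c⟩

lemma cv_sum {ι : Type*} (s : Finset ι) {a : ι → ℕ → ℝ} (h : ∀ i ∈ s, Cv (a i)) :
    Cv (fun N => ∑ i ∈ s, a i N) := by
  classical
  induction s using Finset.induction_on with
  | empty => exact ⟨0, by simp⟩
  | insert i s hi ih =>
    simp only [Finset.sum_insert hi]
    exact cv_add (h i (Finset.mem_insert_self _ _)) (ih fun j hj => h j (Finset.mem_insert_of_mem hj))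

lemma cv_of_close {a : ℕ → ℝ} (h : ∀ ε : ℝ, 0 < ε → ∃ b : ℕ → ℝ, Cv b ∧ ∀ N, |a N - b N| ≤ ε) :
    Cv a := by
  by_contra hc
  obtain ⟨δ, hδ, ho⟩ := osc_of_not_cv hc
  obtain ⟨b, hb, hab⟩ := h (δ / 4) (by positivity)
  have h1 := osc_close ho hab
  exact not_cv_of_osc (by linarith) h1 hb

/-- the cubic polynomial with the coefficients `c j N` -/
noncomputable def cub (c : Fin 4 → ℕ → ℝ) (s : ℝ) (N : ℕ) : ℝ := ∑ j : Fin 4, s ^ (j : ℕ) * c j N

open Polynomial in
lemma cv_cub {c : Fin 4 → ℕ → ℝ} {S : Finset ℝ} (hS : S.card = 4) (h : ∀ s ∈ S, Cv (cub c s))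
    (t : ℝ) : Cv (cub c t) := by
  classical
  have key : ∀ N, cub c t N = ∑ s ∈ S, (Lagrange.basis S id s).eval t * cub c s N := by
    intro N
    set P : ℝ[X] := ∑ j : Fin 4, C (c j N) * X ^ (j : ℕ) with hP
    have hev : ∀ s : ℝ, P.eval s = cub c s N := by
      intro s
      rw [hP, eval_finsetSum]
      unfold cub
      refine Finset.sum_congr rfl fun j _ => ?_
      rw [eval_mul, eval_C, eval_pow, eval_X, mul_comm]
    have hdeg : P.degree < S.card := by
      rw [hS]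
      refine (degree_sum_le _ _).trans_lt ?_
      rw [Finset.sup_lt_iff (by exact_mod_cast WithBot.bot_lt_coe 4)]
      intro j _
      refine (degree_C_mul_X_pow_le _ _).trans_lt ?_
      exact_mod_cast j.2
    have h1 := Lagrange.eq_interpolate_of_eval_eq (s := S) (v := id) (f := P)
      (fun s => P.eval s) (Set.injOn_id _) hdeg (fun i _ => rfl)
    have h2 : P.eval t = ∑ s ∈ S, P.eval s * (Lagrange.basis S id s).eval t := by
      conv_lhs => rw [h1]
      rw [Lagrange.interpolate_apply, eval_finsetSum]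
      refine Finset.sum_congr rfl fun s _ => ?_
      rw [eval_mul, eval_C]
    rw [← hev t, h2]
    refine Finset.sum_congr rfl fun s _ => ?_
    rw [hev s, mul_comm]
  have h3 : cub c t = fun N => ∑ s ∈ S, (Lagrange.basis S id s).eval t * cub c s N := by
    funext N
    exact key N
  rw [h3]
  exact cv_sum S fun s hs => cv_const_mul _ (h s hs)

/-- If the cubic polynomials diverge for one value of the variable then they converge for at most
finitely many values. -/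
lemma finite_cub {c : Fin 4 → ℕ → ℝ} {t : ℝ} (h : ¬ Cv (cub c t)) : {s : ℝ | Cv (cub c s)}.Finite := by
  by_contra hinf
  obtain ⟨S, hS, hc⟩ := Set.Infinite.exists_subset_card_eq hinf 4
  exact h (cv_cub hc (fun s hs => hS hs) t)

end Pool.Agent.K1H28.ZO
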