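import Pool.Agent.K1H28.ZO.Tri

/-!
# From one set to three sets
-/

set_option autoImplicit false
set_option linter.unusedSectionVars false

open MeasureTheory Filter Topology Finset
open scoped ENNReal

namespace Pool.Agent.K1H28.ZO

section Cyc

variable (p : ℕ) [NeZero p]

/-- the uniform measure on the cyclic group -/
noncomputable def uz : Measure (ZMod p) := (p : ℝ≥0∞)⁻¹ • Measure.count

instance uz_prob : IsProbabilityMeasure (uz p) := by
  constructor
  unfold uz
  rw [Measure.smul_apply, Measure.count_univ, smul_eq_mul]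
  have h1 : ENat.card (ZMod p) = p := by
    rw [ENat.card_eq_coe_fintype_card, ZMod.card]
  rw [h1]
  have hp : (p : ℝ≥0∞) ≠ 0 := by exact_mod_cast NeZero.ne p
  change (p : ℝ≥0∞)⁻¹ * (p : ℝ≥0∞) = 1
  exact ENNReal.inv_mul_cancel hp (ENNReal.natCast_ne_top p)

lemma uz_mp : MeasurePreserving (fun i : ZMod p => i + 1) (uz p) (uz p) := by
  have hm : Measurable (fun i : ZMod p => i + 1) := measurable_from_top
  refine ⟨hm, ?_⟩
  unfold uz
  rw [Measure.map_smul]
  congr 1
  ext s hs
  rw [Measure.map_apply hm hs, Measure.count_apply (hm hs), Measure.count_apply hs]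
  congr 1
  have hb : Function.Bijective (fun i : ZMod p => i + 1) := (Equiv.addRight (1 : ZMod p)).bijective
  rw [← Set.InjOn.encard_image (hb.injective.injOn) , Set.image_preimage_eq _ hb.surjective]

lemma uz_ae {P : ZMod p → Prop} (h : ∀ᵐ i ∂(uz p), P i) (i : ZMod p) : P i := by
  unfold uz at h
  have hp : (p : ℝ≥0∞)⁻¹ ≠ 0 := by
    simp
  rw [ae_iff, Measure.smul_apply, smul_eq_mul] at h
  have h1 := (mul_eq_zero.1 h).resolve_left hp
  exact Measure.ae_count_iff.1 (ae_iff.2 h1) i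

end Cyc

/-- the map on the product with a cyclic group -/
def cyc {X : Type} (p : ℕ) (T : X → X) : X × ZMod p → X × ZMod p := Prod.map T (fun i => i + 1)

lemma cyc_iter {X : Type} (p : ℕ) (T : X → X) (n : ℕ) (x : X) : (cyc p T)^[n] (x, 0) = (T^[n] x, (n : ZMod p)) := by
  unfold cyc
  rw [Prod.map_iterate, Prod.map_apply]
  congr 1
  induction n with
  | zero => simp
  | succ n ih => rw [Function.iterate_succ_apply', ih]; push_cast; ring

/-- the set in the product -/
def bigset {X : Type} (p : ℕ) (c : ZMod p) (A B C : Set X) : Set (X × ZMod p) :=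
  A ×ˢ {c} ∪ B ×ˢ {2 * c} ∪ C ×ˢ {3 * c}

lemma small_ne {p : ℕ} (hp : p.Prime) (h7 : 7 ≤ p) {c : ZMod p} (hc : c ≠ 0) {j : ℕ} (h0 : 0 < j) (h6 : j < 7) :
    (j : ZMod p) * c ≠ 0 := by
  have : Fact p.Prime := ⟨hp⟩
  refine mul_ne_zero ?_ hc
  intro h
  rw [ZMod.natCast_eq_zero_iff] at h
  have := Nat.le_of_dvd h0 h
  omega

lemma ind_mem {X : Type*} {A : Set X} {x : X} (h : x ∈ A) : ind A x = 1 := by
  unfold ind; exact Set.indicator_of_mem h _

lemma ind_notMem {X : Type*} {A : Set X} {x : X} (h : x ∉ A) : ind A x = 0 := by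
  unfold ind; exact Set.indicator_of_notMem h _

lemma ind_congr {X Y : Type*} {A : Set X} {B : Set Y} {x : X} {y : Y} (h : x ∈ A ↔ y ∈ B) : ind A x = ind B y := by
  by_cases hx : x ∈ A
  · rw [ind_mem hx, ind_mem (h.1 hx)]
  · rw [ind_notMem hx, ind_notMem fun hy => hx (h.2 hy)]

lemma prod_big {X : Type} {p : ℕ} (hp : p.Prime) (h7 : 7 ≤ p) {c : ZMod p} (hc : c ≠ 0) (A B C : Set X)
    (n : ℕ) (x y z : X) :
    ind (bigset p c A B C) (x, (n : ZMod p)) * ind (bigset p c A B C) (y, ((2 * n : ℕ) : ZMod p)) *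
      ind (bigset p c A B C) (z, ((3 * n : ℕ) : ZMod p)) =
      if (n : ZMod p) = c then ind A x * ind B y * ind C z else 0 := by
  have k1 := small_ne hp h7 hc (j := 1) (by norm_num) (by norm_num)
  have k2 := small_ne hp h7 hc (j := 2) (by norm_num) (by norm_num)
  have k3 := small_ne hp h7 hc (j := 3) (by norm_num) (by norm_num)
  have k4 := small_ne hp h7 hc (j := 4) (by norm_num) (by norm_num)
  have k5 := small_ne hp h7 hc (j := 5) (by norm_num) (by norm_num)
  push_cast at k1 k2 k3 k4 k5 ⊢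
  have mem : ∀ (w : X) (i : ZMod p), (w, i) ∈ bigset p c A B C ↔
      (w ∈ A ∧ i = c) ∨ (w ∈ B ∧ i = 2 * c) ∨ (w ∈ C ∧ i = 3 * c) := by
    intro w i
    unfold bigset
    simp only [Set.mem_union, Set.mem_prod, Set.mem_singleton_iff]
    tauto
  split_ifs with h
  · rw [h]
    have e1 : ind (bigset p c A B C) (x, c) = ind A x := by
      refine ind_congr ?_
      rw [mem]
      constructor
      · rintro (h1 | h1 | h1)
        · exact h1.1
        · exact absurd (by linear_combination -h1.2) k1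
        · exact absurd (by linear_combination -h1.2) k2
      · exact fun h1 => Or.inl ⟨h1, rfl⟩
    have e2 : ind (bigset p c A B C) (y, 2 * c) = ind B y := by
      refine ind_congr ?_
      rw [mem]
      constructor
      · rintro (h1 | h1 | h1)
        · exact absurd (by linear_combination h1.2) k1
        · exact h1.1
        · exact absurd (by linear_combination -h1.2) k1
      · exact fun h1 => Or.inr (Or.inl ⟨h1, rfl⟩)
    have e3 : ind (bigset p c A B C) (z, 3 * c) = ind C z := by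
      refine ind_congr ?_
      rw [mem]
      constructor
      · rintro (h1 | h1 | h1)
        · exact absurd (by linear_combination h1.2) k2
        · exact absurd (by linear_combination h1.2) k1
        · exact h1.1
      · exact fun h1 => Or.inr (Or.inr ⟨h1, rfl⟩)
    rw [e1, e2, e3]
  · by_cases hx : (x, (n : ZMod p)) ∈ bigset p c A B C
    · by_cases hy : (y, 2 * (n : ZMod p)) ∈ bigset p c A B C
      · exfalso
        rw [mem] at hx hy
        rcases hx with ⟨_, hx⟩ | ⟨_, hx⟩ | ⟨_, hx⟩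
        · exact h hx
        · rcases hy with ⟨_, hy⟩ | ⟨_, hy⟩ | ⟨_, hy⟩
          · exact k3 (by linear_combination hy - 2 * hx)
          · exact k2 (by linear_combination hy - 2 * hx)
          · exact k1 (by linear_combination hy - 2 * hx)
        · rcases hy with ⟨_, hy⟩ | ⟨_, hy⟩ | ⟨_, hy⟩
          · exact k5 (by linear_combination hy - 2 * hx)
          · exact k4 (by linear_combination hy - 2 * hx)
          · exact k3 (by linear_combination hy - 2 * hx)
      · rw [ind_notMem hy]; ring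
    · rw [ind_notMem hx]; ring

lemma card_mult (p : ℕ) (hp : 0 < p) (N : ℕ) :
    (((Icc 1 N).filter fun n : ℕ => (n : ZMod p) = 0).card : ℝ) ≤ N / p := by
  have h1 : (Icc 1 N).filter (fun n : ℕ => (n : ZMod p) = 0) = (Ioc 0 N).filter fun n : ℕ => p ∣ n := by
    ext n
    simp only [Finset.mem_filter, Finset.mem_Icc, Finset.mem_Ioc, ZMod.natCast_eq_zero_iff]
    constructor
    · rintro ⟨⟨h1, h2⟩, h3⟩; exact ⟨⟨h1, h2⟩, h3⟩
    · rintro ⟨⟨h1, h2⟩, h3⟩; exact ⟨⟨h1, h2⟩, h3⟩
  rw [h1, Nat.Ioc_filter_dvd_card_eq_div]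
  exact Nat.cast_div_le

theorem trip_of_dset {ν : ℕ → ℕ} (H : DSet ν) : Trip ν := by
  intro X _ μ _ T hT A B C hA hB hC
  have key : ∀ p : ℕ, p.Prime → 7 ≤ p → ∀ c : ZMod p, c ≠ 0 → ∀ᵐ x ∂μ, Cv (fun k => (ν k : ℝ)⁻¹ *
      ∑ n ∈ Icc 1 (ν k), if (n : ZMod p) = c then ind A (T^[n] x) * ind B (T^[2 * n] x) *
        ind C (T^[3 * n] x) else 0) := by
    intro p hp h7 c hc
    have : NeZero p := ⟨hp.ne_zero⟩
    have hS : MeasurableSet (bigset p c A B C) := by
      unfold bigset
      exact ((hA.prod (measurableSet_singleton _)).union (hB.prod (measurableSet_singleton _))).union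
        (hC.prod (measurableSet_singleton _))
    have h1 := H (X × ZMod p) (μ.prod (uz p)) (cyc p T) (hT.prod (uz_mp p)) (bigset p c A B C) hS
    filter_upwards [Measure.ae_ae_of_ae_prod h1] with x hx
    have h2 := uz_ae p hx 0
    obtain ⟨L, hL⟩ := h2
    refine ⟨L, hL.congr fun k => ?_⟩
    unfold av
    congr 1
    refine Finset.sum_congr rfl fun n _ => ?_
    rw [cyc_iter, cyc_iter, cyc_iter]
    exact prod_big hp h7 hc A B C n _ _ _
  have hall : ∀ᵐ x ∂μ, ∀ p : ℕ, p.Prime → 7 ≤ p → ∀ c : ZMod p, c ≠ 0 → Cv (fun k => (ν k : ℝ)⁻¹ *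
      ∑ n ∈ Icc 1 (ν k), if (n : ZMod p) = c then ind A (T^[n] x) * ind B (T^[2 * n] x) *
        ind C (T^[3 * n] x) else 0) := by
    rw [ae_all_iff]; intro p
    by_cases hp : p.Prime
    · by_cases h7 : 7 ≤ p
      · have : NeZero p := ⟨hp.ne_zero⟩
        have h3 : ∀ᵐ x ∂μ, ∀ c : ZMod p, c ≠ 0 → Cv (fun k => (ν k : ℝ)⁻¹ *
            ∑ n ∈ Icc 1 (ν k), if (n : ZMod p) = c then ind A (T^[n] x) * ind B (T^[2 * n] x) *
            ind C (T^[3 * n] x) else 0) := by
          rw [ae_all_iff]; intro c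
          by_cases hc : c = 0
          · exact Eventually.of_forall fun x h => absurd hc h
          · filter_upwards [key p hp h7 c hc] with x hx _
            exact hx
        filter_upwards [h3] with x hx _ _
        exact hx
      · exact Eventually.of_forall fun x _ h => absurd h h7
    · exact Eventually.of_forall fun x h => absurd h hp
  filter_upwards [hall] with x hx
  refine cv_of_close fun ε hε => ?_
  obtain ⟨m, hm⟩ := exists_nat_one_div_lt hε
  obtain ⟨p, hpm, hp⟩ := Nat.exists_infinite_primes (max 7 (m + 1))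
  have h7 : 7 ≤ p := (le_max_left _ _).trans hpm
  have hpm' : m + 1 ≤ p := (le_max_right _ _).trans hpm
  have : NeZero p := ⟨hp.ne_zero⟩
  classical
  refine ⟨fun k => ∑ c ∈ (univ : Finset (ZMod p)).erase 0, (ν k : ℝ)⁻¹ *
      ∑ n ∈ Icc 1 (ν k), if (n : ZMod p) = c then ind A (T^[n] x) * ind B (T^[2 * n] x) *
        ind C (T^[3 * n] x) else 0, ?_, ?_⟩
  · exact cv_sum _ fun c hc => hx p hp h7 c (Finset.ne_of_mem_erase hc)
  · intro k
    unfold av
    change |(ν k : ℝ)⁻¹ * ∑ n ∈ Icc 1 (ν k), ind A (T^[n] x) * ind B (T^[2 * n] x) * ind C (T^[3 * n] x) -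
      ∑ c ∈ (univ : Finset (ZMod p)).erase 0, (ν k : ℝ)⁻¹ *
      ∑ n ∈ Icc 1 (ν k), (if (n : ZMod p) = c then ind A (T^[n] x) * ind B (T^[2 * n] x) *
        ind C (T^[3 * n] x) else 0)| ≤ ε
    rw [← Finset.mul_sum, Finset.sum_comm, ← mul_sub, ← Finset.sum_sub_distrib]
    have e1 : ∀ n ∈ Icc 1 (ν k), ind A (T^[n] x) * ind B (T^[2 * n] x) * ind C (T^[3 * n] x) -
        ∑ c ∈ (univ : Finset (ZMod p)).erase 0, (if (n : ZMod p) = c then ind A (T^[n] x) *
          ind B (T^[2 * n] x) * ind C (T^[3 * n] x) else 0) =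
        if (n : ZMod p) = 0 then ind A (T^[n] x) * ind B (T^[2 * n] x) * ind C (T^[3 * n] x) else 0 := by
      intro n _
      rw [Finset.sum_ite_eq]
      by_cases h0 : (n : ZMod p) = 0
      · rw [if_pos h0, if_neg (by rw [h0]; exact Finset.notMem_erase _ _), sub_zero]
      · rw [if_neg h0, if_pos (Finset.mem_erase.2 ⟨h0, Finset.mem_univ _⟩), sub_self]
    rw [Finset.sum_congr rfl e1, abs_mul, abs_inv, Nat.abs_cast]
    have hb : ∀ n : ℕ, |if (n : ZMod p) = 0 then ind A (T^[n] x) * ind B (T^[2 * n] x) *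
        ind C (T^[3 * n] x) else 0| ≤ if (n : ZMod p) = 0 then 1 else 0 := by
      intro n
      split_ifs
      · rw [abs_of_nonneg (mul_nonneg (mul_nonneg (ind_nonneg _ _) (ind_nonneg _ _)) (ind_nonneg _ _))]
        exact mul_le_one₀ (mul_le_one₀ (ind_le_one _ _) (ind_nonneg _ _) (ind_le_one _ _)) (ind_nonneg _ _)
          (ind_le_one _ _)
      · simp
    have h2 : |∑ n ∈ Icc 1 (ν k), if (n : ZMod p) = 0 then ind A (T^[n] x) * ind B (T^[2 * n] x) *
        ind C (T^[3 * n] x) else 0| ≤ (ν k : ℝ) / p := by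
      refine (Finset.abs_sum_le_sum_abs _ _).trans ((Finset.sum_le_sum fun n _ => hb n).trans ?_)
      rw [Finset.sum_boole]
      exact card_mult p hp.pos (ν k)
    have hp0 : (0 : ℝ) < p := by exact_mod_cast hp.pos
    have h3 : (ν k : ℝ)⁻¹ * ((ν k : ℝ) / p) ≤ 1 / p := by
      rcases Nat.eq_zero_or_pos (ν k) with h0 | h0
      · rw [h0]; simp
      · have : (0 : ℝ) < (ν k : ℝ) := by exact_mod_cast h0
        have e : (ν k : ℝ)⁻¹ * ((ν k : ℝ) / p) = 1 / p := by field_simp
        exact e.le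
    refine (mul_le_mul_of_nonneg_left h2 (by positivity)).trans (h3.trans ?_)
    refine le_trans ?_ hm.le
    apply one_div_le_one_div_of_le (by positivity)
    exact_mod_cast hpm'

end Pool.Agent.K1H28.ZO
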