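import Pool.Agent.K1H28.ZO.Zero

/-!
# A single function with values in `[0, 1]` with divergence at almost every point
-/

set_option autoImplicit false
set_option linter.unusedSectionVars false

open MeasureTheory Filter Topology Finset
open scoped ENNReal

namespace Pool.Agent.K1H28.ZO

variable {ν : ℕ → ℕ} {X : Type*} [MeasurableSpace X] {μ : Measure X} [IsProbabilityMeasure μ]

/-- the constant function one -/
noncomputable def one' (μ : Measure X) [IsProbabilityMeasure μ] : Lp ℝ ⊤ μ := Lp.const ⊤ μ (1 : ℝ)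

lemma mem_box {F : Lp ℝ ⊤ μ} :
    F ∈ Set.Icc (0 : Lp ℝ ⊤ μ) (one' μ) ↔ ∀ᵐ x ∂μ, 0 ≤ F x ∧ F x ≤ 1 := by
  rw [Set.mem_Icc, ← Lp.coeFn_le, ← Lp.coeFn_le]
  constructor
  · rintro ⟨h1, h2⟩
    filter_upwards [h1, h2, Lp.coeFn_zero ℝ ⊤ μ, Lp.coeFn_const (p := ⊤) (μ := μ) (c := (1 : ℝ))]
      with x a1 a2 a3 a4
    rw [a3] at a1
    unfold one' at a2
    rw [a4] at a2
    exact ⟨a1, a2⟩
  · intro h
    constructor
    · filter_upwards [h, Lp.coeFn_zero ℝ ⊤ μ] with x a1 a3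
      rw [a3]
      exact a1.1
    · filter_upwards [h, Lp.coeFn_const (p := ⊤) (μ := μ) (c := (1 : ℝ))] with x a1 a4
      unfold one'
      rw [a4]
      exact a1.2

lemma box_norm {F : Lp ℝ ⊤ μ} (h : F ∈ Set.Icc (0 : Lp ℝ ⊤ μ) (one' μ)) : ‖F‖ ≤ 1 := by
  refine (Lp.norm_le_of_ae_bound (C := 1) zero_le_one ?_).trans ?_
  · filter_upwards [mem_box.1 h] with x hx
    rw [Real.norm_eq_abs, abs_of_nonneg hx.1]
    exact hx.2
  · simp [measureUnivNNReal]

theorem diag_fun {T : X → X} (hT : Ergodic T μ) {u : X → ℝ} (hu : Measurable u)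
    (hu0 : ∀ x, 0 ≤ u x) (hu1 : ∀ x, u x ≤ 1) (hd : ¬ ∀ᵐ x ∂μ, Cv (av ν T u u u x)) :
    ∃ f : X → ℝ, Measurable f ∧ (∀ x, 0 ≤ f x ∧ f x ≤ 1) ∧ ∀ᵐ x ∂μ, ¬ Cv (av ν T f f f x) := by
  have hTp := hT.toMeasurePreserving
  have hTm : Measurable T := hTp.measurable
  have huL : MemLp u ⊤ μ := MemLp.of_bound hu.aestronglyMeasurable 1 (Eventually.of_forall fun x => by
    rw [Real.norm_eq_abs, abs_of_nonneg (hu0 x)]
    exact hu1 x)
  set U : Lp ℝ ⊤ μ := huL.toLp u with hU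
  have hUbox : U ∈ Set.Icc (0 : Lp ℝ ⊤ μ) (one' μ) := by
    rw [mem_box]
    filter_upwards [huL.coeFn_toLp] with x hx
    rw [hx]
    exact ⟨hu0 x, hu1 x⟩
  have hUk : ∀ k, cmp hTp k U ∈ Set.Icc (0 : Lp ℝ ⊤ μ) (one' μ) := by
    intro k
    rw [mem_box]
    filter_upwards [cmp_coe hTp k U, ae_orbit hTp (mem_box.1 hUbox)] with x h1 h2
    rw [h1]
    exact h2 k
  have hln : ∀ (s : ℝ) (F G : Lp ℝ ⊤ μ), 0 ≤ s → s ≤ 1 → F ∈ Set.Icc (0 : Lp ℝ ⊤ μ) (one' μ) →
      G ∈ Set.Icc (0 : Lp ℝ ⊤ μ) (one' μ) → ln s F G ∈ Set.Icc (0 : Lp ℝ ⊤ μ) (one' μ) := by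
    intro s F G hs0 hs1 hF hG
    rw [mem_box]
    filter_upwards [ln_coe s F G, mem_box.1 hF, mem_box.1 hG] with x h1 h2 h3
    rw [h1]
    have e : F x + s * (G x - F x) = (1 - s) * F x + s * G x := by ring
    rw [e]
    constructor
    · have a1 := mul_nonneg (by linarith : 0 ≤ 1 - s) h2.1
      have a2 := mul_nonneg hs0 h3.1
      linarith
    · have a1 := mul_le_mul_of_nonneg_left h2.2 (by linarith : 0 ≤ 1 - s)
      have a2 := mul_le_mul_of_nonneg_left h3.2 hs0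
      linarith
  set D : Set X := {x | ¬ Cv (av ν T U U U x)} with hD
  have hDm : MeasurableSet D := (cv_measurableSet fun N =>
    av_meas hTm (linf_meas U) (linf_meas U) (linf_meas U) N).compl
  have hD0 : μ D ≠ 0 := by
    intro h0
    apply hd
    have h1 : ∀ᵐ x ∂μ, x ∉ D := by
      rw [ae_iff]
      simpa using h0
    filter_upwards [h1, av_congr_ae hTp huL.coeFn_toLp huL.coeFn_toLp huL.coeFn_toLp] with x h2 h3
    rw [← h3]
    by_contra hc
    exact h2 hc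
  have hcon := union_conull hT hDm hD0
  let E : Type _ := Set.Icc (0 : Lp ℝ ⊤ μ) (one' μ)
  have hE : CompleteSpace (Set.Icc (0 : Lp ℝ ⊤ μ) (one' μ)) := isClosed_Icc.completeSpace_coe
  have hb := baire (μ := μ) (E := Set.Icc (0 : Lp ℝ ⊤ μ) (one' μ))
    (fun F x => av ν T F.1 F.1 F.1 x)
    (fun F N => av_meas hTm (linf_meas _) (linf_meas _) (linf_meas _) N) ?_
    (fun k => T^[k] ⁻¹' D) (fun k => hTm.iterate k hDm) ?_
  · have hne : (Set.Icc (0 : Lp ℝ ⊤ μ) (one' μ)).Nonempty := ⟨U, hUbox⟩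
    have : Nonempty (Set.Icc (0 : Lp ℝ ⊤ μ) (one' μ)) := hne.to_subtype
    obtain ⟨F, hF⟩ := (dense_of_mem_residual hb).nonempty
    refine ⟨fun x => max 0 (min 1 (F.1 x)), ?_, fun x => ⟨le_max_left _ _, ?_⟩, ?_⟩
    · exact measurable_const.max (measurable_const.min (linf_meas F.1))
    · exact max_le zero_le_one (min_le_left _ _)
    · have hFe : (fun x => max 0 (min 1 (F.1 x))) =ᵐ[μ] (F.1 : X → ℝ) := by
        filter_upwards [mem_box.1 F.2] with x hx
        rw [min_eq_right hx.2, max_eq_right hx.1]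
      filter_upwards [hF, hcon, av_congr_ae hTp hFe hFe hFe] with x h1 h2 h3
      rw [h3]
      exact h1 h2
  · rintro F
    refine ⟨3 * 1 ^ 2, by positivity, ?_⟩
    rintro F' _
    have d1 : dist F.1 F'.1 ≤ dist F' F := by
      rw [dist_comm F' F]; exact le_rfl
    exact lip_lp hTp F.1 F.1 F.1 F'.1 F'.1 F'.1 zero_le_one (box_norm F'.2) (box_norm F.2)
      (box_norm F'.2) (box_norm F.2) d1 d1 d1
  · rintro k F ε hε
    set R : ℝ := ‖cmp hTp k U - F.1‖ + 1 with hR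
    have hRp : 0 < R := by positivity
    obtain ⟨s, hs0, hs1, hs⟩ := exists_small (line_lp (ν := ν) hTp k F.1 F.1 F.1 U U U)
      (r := min 1 (ε / R)) (lt_min one_pos (by positivity))
    have hs2 : s < 1 := hs1.trans_le (min_le_left _ _)
    have hs3 : s < ε / R := hs1.trans_le (min_le_right _ _)
    refine ⟨⟨ln s F.1 (cmp hTp k U), hln s _ _ hs0.le hs2.le F.2 (hUk k)⟩, ?_, hs⟩
    have hsR : s * R < ε := by rwa [lt_div_iff₀ hRp] at hs3
    rw [Subtype.dist_eq, ln_dist, abs_of_pos hs0]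
    nlinarith [norm_nonneg (cmp hTp k U - F.1)]

end Pool.Agent.K1H28.ZO
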