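import Pool.Agent.K1H28.ZO.Main

/-!
# Convergence along rational dilations of the sequence of scales
-/

set_option autoImplicit false
set_option linter.unusedSectionVars false

open MeasureTheory Filter Topology Finset
open scoped ENNReal

namespace Pool.Agent.K1H28.ZO

/-- the terms of the averages -/
noncomputable def cc {X : Type*} (T : X → X) (f g h : X → ℝ) (x : X) (n : ℕ) : ℝ :=
  f (T^[n] x) * g (T^[2 * n] x) * h (T^[3 * n] x)

lemma av_cc {X : Type*} (ν : ℕ → ℕ) (T : X → X) (f g h : X → ℝ) (x : X) (k : ℕ) :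
    av ν T f g h x k = (ν k : ℝ)⁻¹ * ∑ n ∈ Icc 1 (ν k), cc T f g h x n := rfl

lemma cc_bound {X : Type*} {T : X → X} {f g h : X → ℝ} (hf : ∀ x, |f x| ≤ 1) (hg : ∀ x, |g x| ≤ 1)
    (hh : ∀ x, |h x| ≤ 1) (x : X) (n : ℕ) : |cc T f g h x n| ≤ 1 := by
  unfold cc
  rw [abs_mul, abs_mul]
  exact mul_le_one₀ (mul_le_one₀ (hf _) (abs_nonneg _) (hg _)) (abs_nonneg _) (hh _)

lemma sum_range_mul (p : ℕ) (d : ℕ → ℝ) (M : ℕ) :
    ∑ i ∈ range (p * M), d i = ∑ r ∈ range p, ∑ m ∈ range M, d (p * m + r) := by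
  induction M with
  | zero => simp
  | succ M ih =>
    rw [Nat.mul_succ, Finset.sum_range_add, ih, ← Finset.sum_add_distrib]
    exact Finset.sum_congr rfl fun r _ => by rw [Finset.sum_range_succ]

lemma shift_bound {e : ℕ → ℝ} (he : ∀ n, |e n| ≤ 1) (n p : ℕ) :
    |∑ i ∈ range n, e i - ∑ i ∈ range n, e (i + p)| ≤ 2 * p := by
  have h1 : ∑ i ∈ range n, e i + ∑ i ∈ range p, e (n + i) =
      ∑ i ∈ range p, e i + ∑ i ∈ range n, e (i + p) := by
    rw [← Finset.sum_range_add, Nat.add_comm n p, Finset.sum_range_add]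
    congr 1
    exact Finset.sum_congr rfl fun i _ => by rw [Nat.add_comm]
  have h2 : ∑ i ∈ range n, e i - ∑ i ∈ range n, e (i + p) =
      ∑ i ∈ range p, e i - ∑ i ∈ range p, e (n + i) := by linarith
  rw [h2]
  have hb : ∀ (s : ℕ → ℕ), |∑ i ∈ range p, e (s i)| ≤ p := by
    intro s
    refine (Finset.abs_sum_le_sum_abs _ _).trans ?_
    refine (Finset.sum_le_card_nsmul _ _ 1 fun i _ => he _).trans ?_
    rw [Finset.card_range]
    simp
  refine (abs_sub _ _).trans ?_
  have h3 := hb fun i => i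
  have h4 := hb fun i => n + i
  linarith

lemma cv_of_diff {a b : ℕ → ℝ} (ha : Cv a) (h : Tendsto (fun k => b k - a k) atTop (𝓝 0)) : Cv b := by
  obtain ⟨L, hL⟩ := ha
  refine ⟨0 + L, (h.add hL).congr fun k => ?_⟩
  ring

theorem pdil {ν : ℕ → ℕ} (hν : Tendsto ν atTop atTop) (H : Q1 ν) {X : Type} [MeasurableSpace X]
    {μ : Measure X} [IsProbabilityMeasure μ] {T : X → X} (hT : MeasurePreserving T μ μ) {f g h : X → ℝ}
    (hf : Measurable f) (hg : Measurable g) (hh : Measurable h) (hfb : ∀ x, |f x| ≤ 1)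
    (hgb : ∀ x, |g x| ≤ 1) (hhb : ∀ x, |h x| ≤ 1) (p : ℕ) :
    ∀ᵐ x ∂μ, Cv (fun k => (ν k : ℝ)⁻¹ * ∑ n ∈ Icc 1 (p * ν k), cc T f g h x n) := by
  have hmem : ∀ (u : X → ℝ), Measurable u → (∀ x, |u x| ≤ 1) → ∀ j : ℕ,
      MemLp (fun x => u (T^[j] x)) ⊤ μ := by
    intro u hu hub j
    exact MemLp.of_bound (hu.comp (hT.measurable.iterate j)).aestronglyMeasurable 1
      (Eventually.of_forall fun x => by rw [Real.norm_eq_abs]; exact hub _)
  have h1 : ∀ᵐ x ∂μ, ∀ r : ℕ, Cv (av ν T^[p] (fun x => f (T^[r + 1] x)) (fun x => g (T^[2 * (r + 1)] x))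
      (fun x => h (T^[3 * (r + 1)] x)) x) := by
    rw [ae_all_iff]
    intro r
    exact H X μ T^[p] (hT.iterate p) _ _ _ (hmem f hf hfb _) (hmem g hg hgb _) (hmem h hh hhb _)
  filter_upwards [h1] with x hx
  have h2 : Cv (fun k => ∑ r ∈ range p, av ν T^[p] (fun x => f (T^[r + 1] x))
      (fun x => g (T^[2 * (r + 1)] x)) (fun x => h (T^[3 * (r + 1)] x)) x k) :=
    cv_sum _ fun r _ => hx r
  refine cv_of_diff h2 ?_
  have hν' : Tendsto (fun k => (ν k : ℝ)) atTop atTop := tendsto_natCast_atTop_atTop.comp hν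
  have h0 : Tendsto (fun k => (ν k : ℝ)⁻¹ * (2 * p)) atTop (𝓝 0) := by
    have := hν'.inv_tendsto_atTop.mul_const (2 * (p : ℝ))
    rwa [zero_mul] at this
  refine squeeze_zero_norm (fun k => ?_) h0
  have e1 : ∀ r m : ℕ, f (T^[r + 1] ((T^[p])^[m] x)) * g (T^[2 * (r + 1)] ((T^[p])^[2 * m] x)) *
      h (T^[3 * (r + 1)] ((T^[p])^[3 * m] x)) = cc T f g h x (p * m + r + 1) := by
    intro r m
    unfold cc
    rw [← Function.iterate_mul, ← Function.iterate_mul, ← Function.iterate_mul,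
      ← Function.iterate_add_apply, ← Function.iterate_add_apply, ← Function.iterate_add_apply,
      show r + 1 + p * m = p * m + r + 1 by ring,
      show 2 * (r + 1) + p * (2 * m) = 2 * (p * m + r + 1) by ring,
      show 3 * (r + 1) + p * (3 * m) = 3 * (p * m + r + 1) by ring]
  have e2 : ∑ r ∈ range p, av ν T^[p] (fun x => f (T^[r + 1] x))
      (fun x => g (T^[2 * (r + 1)] x)) (fun x => h (T^[3 * (r + 1)] x)) x k =
      (ν k : ℝ)⁻¹ * ∑ i ∈ range (p * ν k), cc T f g h x (i + p + 1) := by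
    rw [sum_range_mul, Finset.mul_sum]
    refine Finset.sum_congr rfl fun r _ => ?_
    unfold av
    congr 1
    rw [← sum_shift]
    refine Finset.sum_congr rfl fun m _ => ?_
    rw [e1]
    congr 1
    ring
  rw [e2, ← mul_sub, Real.norm_eq_abs, abs_mul, abs_inv, Nat.abs_cast]
  refine mul_le_mul_of_nonneg_left ?_ (by positivity)
  rw [← sum_shift]
  have h3 := shift_bound (e := fun i => cc T f g h x (i + 1)) (fun n => cc_bound hfb hgb hhb x _) (p * ν k) p
  refine le_trans (le_of_eq ?_) h3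
  rfl

section Tower

variable {X : Type} [MeasurableSpace X]

/-- the tower of height `q` -/
def tow (q : ℕ) (T : X → X) (y : ZMod q × X) : ZMod q × X :=
  (y.1 + 1, if y.1 + 1 = 0 then T y.2 else y.2)

lemma tow_mp (q : ℕ) [NeZero q] {μ : Measure X} [IsProbabilityMeasure μ] {T : X → X}
    (hT : MeasurePreserving T μ μ) : MeasurePreserving (tow q T) ((uz q).prod μ) ((uz q).prod μ) := by
  have hm : Measurable (fun y : ZMod q × X => if y.1 + 1 = 0 then T y.2 else y.2) := by
    refine Measurable.ite ?_ (hT.measurable.comp measurable_snd) measurable_snd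
    exact (measurable_fst : Measurable (Prod.fst : ZMod q × X → ZMod q))
      (MeasurableSpace.measurableSet_top (s := {i : ZMod q | i + 1 = 0}))
  refine MeasurePreserving.skew_product (uz_mp q)
    (g := fun (i : ZMod q) (x : X) => if i + 1 = 0 then T x else x) hm ?_
  refine Eventually.of_forall fun i => ?_
  by_cases hi : i + 1 = 0
  · simp only [hi, if_true]
    exact hT.map_eq
  · simp only [hi, if_false]
    exact Measure.map_id

lemma tow_iter (q : ℕ) (T : X → X) (x : X) (n : ℕ) :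
    (tow q T)^[n] (0, x) = ((n : ZMod q), T^[n / q] x) := by
  induction n with
  | zero => simp
  | succ n ih =>
    rw [Function.iterate_succ_apply', ih]
    unfold tow
    have e : ((n : ZMod q) + 1 = 0) ↔ q ∣ n + 1 := by
      rw [← ZMod.natCast_eq_zero_iff]
      push_cast
      exact Iff.rfl
    by_cases h : q ∣ n + 1
    · have h' : (n : ZMod q) + 1 = 0 := e.2 h
      rw [Nat.succ_div, if_pos h, Function.iterate_succ_apply']
      simp only [h', if_true, Nat.cast_add, Nat.cast_one]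
    · have h' : ¬ (n : ZMod q) + 1 = 0 := fun h'' => h (e.1 h'')
      rw [Nat.succ_div, if_neg h, add_zero]
      simp only [h', if_false, Nat.cast_add, Nat.cast_one]

lemma sum_dvd (q : ℕ) (hq : 0 < q) (c : ℕ → ℝ) (L : ℕ) :
    ∑ n ∈ Icc 1 L, (if q ∣ n then c (n / q) else 0) = ∑ m ∈ Icc 1 (L / q), c m := by
  induction L with
  | zero => simp
  | succ L ih =>
    rw [Finset.sum_Icc_succ_top (by omega), ih, Nat.succ_div]
    by_cases h : q ∣ L + 1
    · rw [if_pos h, if_pos h, Finset.sum_Icc_succ_top (Nat.le_add_left 1 _)]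
    · rw [if_neg h, if_neg h, add_zero, add_zero]

theorem pqdil {ν : ℕ → ℕ} (hν : Tendsto ν atTop atTop) (H : Q1 ν)
    {μ : Measure X} [IsProbabilityMeasure μ] {T : X → X} (hT : MeasurePreserving T μ μ) {f g h : X → ℝ}
    (hf : Measurable f) (hg : Measurable g) (hh : Measurable h) (hfb : ∀ x, |f x| ≤ 1)
    (hgb : ∀ x, |g x| ≤ 1) (hhb : ∀ x, |h x| ≤ 1) (p q : ℕ) (hq : 0 < q) :
    ∀ᵐ x ∂μ, Cv (fun k => (ν k : ℝ)⁻¹ * ∑ n ∈ Icc 1 (p * ν k / q), cc T f g h x n) := by
  have : NeZero q := ⟨hq.ne'⟩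
  set F : ZMod q × X → ℝ := fun y => if y.1 = 0 then f y.2 else 0 with hF
  have hFm : Measurable F := by
    refine Measurable.ite ?_ (hf.comp measurable_snd) measurable_const
    exact (measurable_fst : Measurable (Prod.fst : ZMod q × X → ZMod q))
      (MeasurableSpace.measurableSet_top (s := {i : ZMod q | i = 0}))
  have h1 := pdil hν H (tow_mp q hT) hFm (hg.comp measurable_snd) (hh.comp measurable_snd)
    (fun y => by
      rw [hF]
      simp only
      split_ifs
      · exact hfb _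
      · simp) (fun y => hgb _) (fun y => hhb _) p
  have h2 := uz_ae q (Measure.ae_ae_of_ae_prod h1) 0
  filter_upwards [h2] with x hx
  obtain ⟨L, hL⟩ := hx
  refine ⟨L, hL.congr fun k => ?_⟩
  congr 1
  rw [← sum_dvd q hq]
  refine Finset.sum_congr rfl fun n _ => ?_
  unfold cc
  rw [tow_iter, tow_iter, tow_iter, hF]
  simp only [Function.comp_apply]
  by_cases hn : q ∣ n
  · obtain ⟨m, rfl⟩ := hn
    rw [if_pos ((ZMod.natCast_eq_zero_iff _ _).2 (dvd_mul_right _ _)), if_pos (dvd_mul_right _ _),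
      Nat.mul_div_cancel_left m hq, show 2 * (q * m) = q * (2 * m) by ring,
      show 3 * (q * m) = q * (3 * m) by ring, Nat.mul_div_cancel_left _ hq, Nat.mul_div_cancel_left _ hq]
  · rw [if_neg (fun h' => hn ((ZMod.natCast_eq_zero_iff _ _).1 h')), if_neg hn]
    ring

end Tower

end Pool.Agent.K1H28.ZO
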