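import Pool.Agent.K1H28.ZO.Finw

/-!
# A shift invariant measure from the failure of the finitary statement
-/

set_option autoImplicit false
set_option linter.unusedSectionVars false

open MeasureTheory Filter Topology Finset
open scoped ENNReal NNReal BoundedContinuousFunction

namespace Pool.Agent.K1H28.ZO

/-- the shift on the two-sided words -/
def sh (w : ℤ → Bool) : ℤ → Bool := fun n => w (n + 1)

/-- the nonnegative part of a two-sided word -/
def ps (w : ℤ → Bool) : ℕ → Bool := fun n => w n

lemma sh_cont : Continuous sh := continuous_pi fun n => continuous_apply (n + 1)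

lemma sh_meas : Measurable sh := measurable_pi_lambda _ fun n => measurable_pi_apply (n + 1)

lemma ps_meas : Measurable ps := measurable_pi_lambda _ fun n => measurable_pi_apply (n : ℤ)

lemma sh_iter (w : ℤ → Bool) (i : ℕ) : sh^[i] w = fun n => w (n + i) := by
  induction i with
  | zero => funext n; simp
  | succ i ih =>
    rw [Function.iterate_succ_apply', ih]
    funext n
    unfold sh
    push_cast
    congr 1
    ring

/-- the extension of a word by zeros -/
def hat (w : ℕ → Bool) : ℤ → Bool := fun n => if 0 ≤ n then w n.toNat else false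

lemma ps_sh_hat (w : ℕ → Bool) (i : ℕ) : ps (sh^[i] (hat w)) = fun n => w (i + n) := by
  rw [sh_iter]
  funext n
  unfold ps hat
  have h1 : (0 : ℤ) ≤ (n : ℤ) + i := by positivity
  change (if (0 : ℤ) ≤ (n : ℤ) + i then w ((n : ℤ) + i).toNat else false) = w (i + n)
  rw [if_pos h1]
  congr 1
  omega

lemma wav_lc (ν : ℕ → ℕ) (k : ℕ) : IsLocallyConstant fun w : ℤ → Bool => wav ν (ps w) k := by
  have h0 : ∀ n : ℕ, IsLocallyConstant fun w : ℤ → Bool => vl (ps w n) := fun n =>
    (IsLocallyConstant.of_discrete vl).comp_continuous (continuous_apply (n : ℤ))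
  have h1 : IsLocallyConstant fun w : ℤ → Bool =>
      ∑ n ∈ Icc 1 (ν k), vl (ps w n) * vl (ps w (2 * n)) * vl (ps w (3 * n)) := by
    rw [IsLocallyConstant.iff_eventually_eq]
    intro w
    have h2 : ∀ᶠ y in 𝓝 w, ∀ n ∈ Icc 1 (ν k), vl (ps y n) = vl (ps w n) ∧
        vl (ps y (2 * n)) = vl (ps w (2 * n)) ∧ vl (ps y (3 * n)) = vl (ps w (3 * n)) := by
      rw [Filter.eventually_all_finset]
      intro n _
      exact ((h0 n).eventually_eq w).and (((h0 (2 * n)).eventually_eq w).and ((h0 (3 * n)).eventually_eq w))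
    filter_upwards [h2] with y hy
    refine Finset.sum_congr rfl fun n hn => ?_
    obtain ⟨a1, a2, a3⟩ := hy n hn
    rw [a1, a2, a3]
  exact h1.comp fun t => (ν k : ℝ)⁻¹ * t

lemma bad_clopen (ν F : ℕ → ℕ) (ε : ℝ) (K : ℕ) :
    IsClopen {w : ℤ → Bool | BadS F ε K (wav ν (ps w))} := by
  have h : IsLocallyConstant fun w : ℤ → Bool => BadS F ε K (wav ν (ps w)) := by
    rw [IsLocallyConstant.iff_eventually_eq]
    intro w
    have h2 : ∀ᶠ y in 𝓝 w, ∀ k ∈ range ((range (K + 1)).sup F + 1), wav ν (ps y) k = wav ν (ps w) k := by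
      rw [Filter.eventually_all_finset]
      intro k _
      exact (wav_lc ν k).eventually_eq w
    filter_upwards [h2] with y hy
    have hle : ∀ N ≤ K, ∀ p ≤ F N, wav ν (ps y) p = wav ν (ps w) p := by
      intro N hN p hp
      apply hy
      rw [Finset.mem_range]
      exact Nat.lt_succ_of_le (hp.trans (Finset.le_sup (f := F) (Finset.mem_range.2 (Nat.lt_succ_of_le hN))))
    refine propext ⟨fun h N hN => ?_, fun h N hN => ?_⟩
    · obtain ⟨p, q, hp, hq, hpq⟩ := h N hN
      refine ⟨p, q, hp, hq, ?_⟩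
      rwa [hle N hN p hp.2, hle N hN q hq.2] at hpq
    · obtain ⟨p, q, hp, hq, hpq⟩ := h N hN
      refine ⟨p, q, hp, hq, ?_⟩
      rwa [hle N hN p hp.2, hle N hN q hq.2]
  have h1 := h.isClopen_fiber True
  have e : {w : ℤ → Bool | BadS F ε K (wav ν (ps w))} =
      {w : ℤ → Bool | BadS F ε K (wav ν (ps w)) = True} := by
    ext w
    simp only [Set.mem_ofPred_eq, eq_iff_iff, iff_true]
  rw [e]
  exact h1

/-- the empirical measure -/
noncomputable def emp (w : ℤ → Bool) (M : ℕ) : Measure (ℤ → Bool) :=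
  (M : ℝ≥0∞)⁻¹ • ∑ i ∈ range M, Measure.dirac (sh^[i] w)

lemma emp_prob (w : ℤ → Bool) {M : ℕ} (hM : 0 < M) : IsProbabilityMeasure (emp w M) := by
  constructor
  unfold emp
  rw [Measure.smul_apply, Measure.finsetSum_apply, smul_eq_mul]
  simp only [measure_univ, Finset.sum_const, Finset.card_range, nsmul_eq_mul, mul_one]
  exact ENNReal.inv_mul_cancel (by exact_mod_cast hM.ne') (ENNReal.natCast_ne_top M)

lemma emp_int (w : ℤ → Bool) (M : ℕ) (f : (ℤ → Bool) →ᵇ ℝ) :
    ∫ y, f y ∂(emp w M) = (M : ℝ)⁻¹ * ∑ i ∈ range M, f (sh^[i] w) := by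
  unfold emp
  rw [integral_smul_measure, integral_finsetSum_measure]
  · simp only [integral_dirac, smul_eq_mul]
    rw [ENNReal.toReal_inv, ENNReal.toReal_natCast]
  · intro i _
    exact BoundedContinuousFunction.integrable _ f

theorem exists_two {ν : ℕ → ℕ} (h : ¬ Fini ν) : ∃ m : Measure (ℤ → Bool), IsProbabilityMeasure m ∧
    MeasurePreserving sh m m ∧ m {w | ¬ Cv (wav ν (ps w))} ≠ 0 := by
  unfold Fini at h
  push Not at h
  obtain ⟨ε, hε, F, hF⟩ := h
  have hF' : ∀ j : ℕ, ∃ (w : ℕ → Bool) (M : ℕ), j + 1 ≤ M ∧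
      ε * M < ({i : ℕ | i < M ∧ Bad ν F ε j (fun n => w (i + n))}.ncard : ℝ) := fun j => hF j (j + 1)
  choose w M hM hw using hF'
  have hM0 : ∀ j, 0 < M j := fun j => lt_of_lt_of_le (Nat.succ_pos j) (hM j)
  set μs : ℕ → ProbabilityMeasure (ℤ → Bool) := fun j => ⟨emp (hat (w j)) (M j), emp_prob _ (hM0 j)⟩ with hμs
  obtain ⟨m, -, hm⟩ := isCompact_univ.exists_mapClusterPt (f := atTop) (u := μs) (by simp)
  rw [mapClusterPt_iff_ultrafilter] at hm
  obtain ⟨U, hU, hUm⟩ := hm
  have hMt : Tendsto (fun j => (M j : ℝ)) atTop atTop := by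
    refine tendsto_atTop_mono (fun j => ?_) tendsto_natCast_atTop_atTop
    exact_mod_cast (Nat.le_succ j).trans (hM j)
  refine ⟨(m : Measure (ℤ → Bool)), inferInstance, ⟨sh_meas, ?_⟩, ?_⟩
  · have hpm : IsProbabilityMeasure (Measure.map sh (m : Measure (ℤ → Bool))) :=
      Measure.isProbabilityMeasure_map sh_meas.aemeasurable
    refine ext_of_forall_integral_eq_of_IsFiniteMeasure fun f => ?_
    rw [integral_map sh_meas.aemeasurable (f.continuous.aestronglyMeasurable)]
    set g : (ℤ → Bool) →ᵇ ℝ := f.compContinuous ⟨sh, sh_cont⟩ with hg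
    have t1 := (ProbabilityMeasure.tendsto_iff_forall_integral_tendsto.1 hUm) f
    have t2 := (ProbabilityMeasure.tendsto_iff_forall_integral_tendsto.1 hUm) g
    have t3 : Tendsto (fun j => ∫ y, g y ∂(μs j : Measure (ℤ → Bool)) - ∫ y, f y ∂(μs j : Measure (ℤ → Bool)))
        U (𝓝 0) := by
      have hb : ∀ j, |∫ y, g y ∂(μs j : Measure (ℤ → Bool)) - ∫ y, f y ∂(μs j : Measure (ℤ → Bool))| ≤
          2 * ‖f‖ * (M j : ℝ)⁻¹ := by
        intro j
        have e1 : ∫ y, g y ∂(μs j : Measure (ℤ → Bool)) = ((M j : ℕ) : ℝ)⁻¹ *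
            ∑ i ∈ range (M j), f (sh^[i + 1] (hat (w j))) := by
          refine (emp_int (hat (w j)) (M j) g).trans ?_
          congr 1
          refine Finset.sum_congr rfl fun i _ => ?_
          rw [Function.iterate_succ_apply']
          rfl
        have e2 : ∫ y, f y ∂(μs j : Measure (ℤ → Bool)) = ((M j : ℕ) : ℝ)⁻¹ *
            ∑ i ∈ range (M j), f (sh^[i] (hat (w j))) := emp_int (hat (w j)) (M j) f
        rw [e1, e2, ← mul_sub, ← Finset.sum_sub_distrib,
          Finset.sum_range_sub (fun i => f (sh^[i] (hat (w j)))), abs_mul, abs_inv, Nat.abs_cast, mul_comm]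
        refine mul_le_mul_of_nonneg_right ?_ (by positivity)
        refine (abs_sub _ _).trans ?_
        have a1 := f.norm_coe_le_norm (sh^[M j] (hat (w j)))
        have a2 := f.norm_coe_le_norm (sh^[0] (hat (w j)))
        rw [Real.norm_eq_abs] at a1 a2
        linarith
      have h0 : Tendsto (fun j => 2 * ‖f‖ * (M j : ℝ)⁻¹) atTop (𝓝 0) := by
        have := hMt.inv_tendsto_atTop.const_mul (2 * ‖f‖)
        rwa [mul_zero] at this
      exact squeeze_zero_norm (fun j => by rw [Real.norm_eq_abs]; exact hb j) (h0.mono_left hU)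
    have t4 := tendsto_nhds_unique t3 (t2.sub t1)
    have e5 : ∫ y, g y ∂(m : Measure (ℤ → Bool)) = ∫ y, f (sh y) ∂(m : Measure (ℤ → Bool)) := rfl
    rw [← e5]
    linarith
  · have hbad : ∀ K : ℕ, ENNReal.ofReal ε ≤ (m : Measure (ℤ → Bool)) {w | BadS F ε K (wav ν (ps w))} := by
      intro K
      have hcl := bad_clopen ν F ε K
      have t1 := ProbabilityMeasure.tendsto_measure_of_isClopen_of_tendsto hUm hcl
      have h1 : ∀ᶠ j in (U : Filter ℕ), ε.toNNReal ≤ μs j {w | BadS F ε K (wav ν (ps w))} := by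
        have h2 : ∀ᶠ j in (atTop : Filter ℕ), ε.toNNReal ≤ μs j {w | BadS F ε K (wav ν (ps w))} := by
          filter_upwards [eventually_ge_atTop K] with j hj
          have h3 : ENNReal.ofReal ε ≤ (emp (hat (w j)) (M j)) {w | BadS F ε K (wav ν (ps w))} := by
            classical
            unfold emp
            rw [Measure.smul_apply, Measure.finsetSum_apply, smul_eq_mul]
            have h4 : ∑ i ∈ range (M j), (Measure.dirac (sh^[i] (hat (w j)))) {w | BadS F ε K (wav ν (ps w))} =
                (((range (M j)).filter fun i => BadS F ε K (wav ν (ps (sh^[i] (hat (w j)))))).card : ℝ≥0∞) := by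
              rw [Finset.card_filter, Nat.cast_sum]
              refine Finset.sum_congr rfl fun i _ => ?_
              rw [Measure.dirac_apply' _ hcl.isOpen.measurableSet]
              by_cases hb : BadS F ε K (wav ν (ps (sh^[i] (hat (w j)))))
              · rw [Set.indicator_of_mem (by exact hb), if_pos hb, Nat.cast_one]; rfl
              · rw [Set.indicator_of_notMem (by exact hb), if_neg hb, Nat.cast_zero]
            rw [h4]
            have h5 : {i : ℕ | i < M j ∧ Bad ν F ε j (fun n => w j (i + n))} ⊆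
                ((range (M j)).filter fun i => BadS F ε K (wav ν (ps (sh^[i] (hat (w j))))) : Finset ℕ) := by
              intro i hi
              rw [Finset.coe_filter, Set.mem_ofPred_eq, Finset.mem_range]
              refine ⟨hi.1, fun N hN => ?_⟩
              rw [ps_sh_hat]
              exact hi.2 N (hN.trans hj)
            have h6 : ({i : ℕ | i < M j ∧ Bad ν F ε j (fun n => w j (i + n))}.ncard : ℝ) ≤
                (((range (M j)).filter fun i => BadS F ε K (wav ν (ps (sh^[i] (hat (w j)))))).card : ℝ) := by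
              have := Set.ncard_le_ncard h5 (Finset.finite_toSet _)
              rw [Set.ncard_coe_finset] at this
              exact_mod_cast this
            have h7 := (hw j).le.trans h6
            have h8 : ENNReal.ofReal (ε * M j) ≤
                (((range (M j)).filter fun i => BadS F ε K (wav ν (ps (sh^[i] (hat (w j)))))).card : ℝ≥0∞) := by
              rw [← ENNReal.ofReal_natCast]
              exact ENNReal.ofReal_le_ofReal h7
            have hne : ((M j : ℕ) : ℝ≥0∞) ≠ 0 := by exact_mod_cast (hM0 j).ne'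
            calc ENNReal.ofReal ε = ((M j : ℕ) : ℝ≥0∞)⁻¹ * (((M j : ℕ) : ℝ≥0∞) * ENNReal.ofReal ε) := by
                  rw [← mul_assoc, ENNReal.inv_mul_cancel hne (ENNReal.natCast_ne_top _), one_mul]
              _ = ((M j : ℕ) : ℝ≥0∞)⁻¹ * ENNReal.ofReal (ε * M j) := by
                  rw [ENNReal.ofReal_mul hε.le, ENNReal.ofReal_natCast, mul_comm (ENNReal.ofReal ε)]
              _ ≤ _ := mul_le_mul_right h8 _
          have h9 : ((μs j {w | BadS F ε K (wav ν (ps w))} : ℝ≥0) : ℝ≥0∞) =
              (emp (hat (w j)) (M j)) {w | BadS F ε K (wav ν (ps w))} := by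
            rw [ProbabilityMeasure.ennreal_coeFn_eq_coeFn_toMeasure]
            rfl
          rw [← h9] at h3
          exact ENNReal.coe_le_coe.1 h3
        exact h2.filter_mono hU
      have h10 := ge_of_tendsto t1 h1
      have h11 : ((m {w | BadS F ε K (wav ν (ps w))} : ℝ≥0) : ℝ≥0∞) =
          (m : Measure (ℤ → Bool)) {w | BadS F ε K (wav ν (ps w))} :=
        ProbabilityMeasure.ennreal_coeFn_eq_coeFn_toMeasure _ _
      rw [← h11]
      exact ENNReal.coe_le_coe.2 h10
    have hanti : Antitone fun K : ℕ => {w : ℤ → Bool | BadS F ε K (wav ν (ps w))} := by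
      intro a b hab w hw N hN
      exact hw N (hN.trans hab)
    have ht := tendsto_measure_iInter_atTop (μ := (m : Measure (ℤ → Bool)))
      (fun K => (bad_clopen ν F ε K).isOpen.measurableSet.nullMeasurableSet) hanti
      ⟨0, measure_ne_top _ _⟩
    have h12 := ge_of_tendsto' ht hbad
    have h13 : (⋂ K : ℕ, {w : ℤ → Bool | BadS F ε K (wav ν (ps w))}) ⊆ {w | ¬ Cv (wav ν (ps w))} := by
      intro w hw
      refine not_cv_of_osc hε fun N => ?_
      obtain ⟨p, q, hp, hq, hpq⟩ := (Set.mem_iInter.1 hw N) N le_rfl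
      exact ⟨p, q, hp.1, hq.1, hpq⟩
    have h14 : 0 < ENNReal.ofReal ε := ENNReal.ofReal_pos.2 hε
    exact (lt_of_lt_of_le h14 (h12.trans (measure_mono h13))).ne'

end Pool.Agent.K1H28.ZO
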