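import Pool.Agent.R291.QDErg4
import Pool.Agent.K1H28.ZO.Two

/-!
# Passage to an ergodic measure
-/

set_option autoImplicit false
set_option linter.unusedSectionVars false

open MeasureTheory Filter Topology Finset
open scoped ENNReal

namespace Pool.Agent.K1H28.ZO

section Dec

variable {X : Type} [MeasurableSpace X] [StandardBorelSpace X]

/-- the action of the integers -/
@[reducible] def zact (T : X ≃ᵐ X) : MulAction (Multiplicative ℤ) X :=
  MulAction.compHom X (zpowersHom (Equiv.Perm X) (T.toEquiv : Equiv.Perm X))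

lemma pow_mp {μ : Measure X} {T : X ≃ᵐ X} (hT : MeasurePreserving T μ μ) (n : ℕ) :
    MeasurePreserving (⇑((T.toEquiv : Equiv.Perm X) ^ n)) μ μ := by
  have := hT.iterate n
  rwa [show (⇑T)^[n] = ⇑((T.toEquiv : Equiv.Perm X) ^ n) from
    Equiv.Perm.iterate_eq_pow (T.toEquiv : Equiv.Perm X) n] at this

lemma zpow_mp {μ : Measure X} {T : X ≃ᵐ X} (hT : MeasurePreserving T μ μ) (k : ℤ) :
    MeasurePreserving (⇑((T.toEquiv : Equiv.Perm X) ^ k)) μ μ := by
  obtain ⟨n, rfl | rfl⟩ := k.eq_nat_or_neg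
  · rw [zpow_natCast]
    exact pow_mp hT n
  · rw [zpow_neg, zpow_natCast, ← inv_pow]
    have h1 : MeasurePreserving T.symm μ μ := hT.symm T
    exact pow_mp h1 n

lemma erg_dec (μ : Measure X) [IsProbabilityMeasure μ] (T : X ≃ᵐ X) (hT : MeasurePreserving T μ μ) :
    ∃ κ : X → Measure X, (∀ z, IsProbabilityMeasure (κ z)) ∧ (∀ᵐ z ∂μ, Ergodic T (κ z)) ∧
      (∀ s, MeasurableSet s → μ s = ∫⁻ z, κ z s ∂μ) ∧
      (∀ p : X → Prop, (∀ᵐ x ∂μ, p x) → ∀ᵐ z ∂μ, ∀ᵐ x ∂(κ z), p x) := by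
  let _ : MulAction (Multiplicative ℤ) X := zact T
  have hsm : ∀ (g : Multiplicative ℤ), (fun x : X => g • x) = ⇑((T.toEquiv : Equiv.Perm X) ^ (g.toAdd)) :=
    fun g => rfl
  have : MeasurableConstSMul (Multiplicative ℤ) X := by
    constructor
    intro g
    rw [show (g • · : X → X) = ⇑((T.toEquiv : Equiv.Perm X) ^ (g.toAdd)) from hsm g]
    exact (zpow_mp hT _).measurable
  have hsys : Pool.Agent.R291.QD.IsSystem (Multiplicative ℤ) μ := by
    refine ⟨inferInstance, fun g => ?_⟩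
    rw [hsm]
    exact (zpow_mp hT _).map_eq
  refine ⟨fun z => Pool.Agent.R291.QD.erg (Multiplicative ℤ) μ z, fun z => inferInstance, ?_, ?_,
    fun p hp => Pool.Agent.R291.QD.erg_ae μ hp⟩
  · filter_upwards [Pool.Agent.R291.QD.erg_ergodic hsys, Pool.Agent.R291.QD.erg_isSystem hsys] with z h1 h2
    have e1 : (fun x : X => (Multiplicative.ofAdd (1 : ℤ)) • x) = ⇑T := by
      rw [hsm]
      rw [toAdd_ofAdd, zpow_one]
      rfl
    have h3 : MeasurePreserving T (Pool.Agent.R291.QD.erg (Multiplicative ℤ) μ z)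
        (Pool.Agent.R291.QD.erg (Multiplicative ℤ) μ z) := by
      refine ⟨T.measurable, ?_⟩
      rw [← e1]
      exact h2.inv _
    refine ⟨h3, ⟨fun s hs hi => ?_⟩⟩
    have hinv : ∀ g : Multiplicative ℤ, (fun x => g • x) ⁻¹' s = s := by
      intro g
      rw [hsm]
      have hp : ∀ n : ℕ, ⇑((T.toEquiv : Equiv.Perm X) ^ n) ⁻¹' s = s := by
        intro n
        rw [← Equiv.Perm.iterate_eq_pow]
        exact Set.preimage_iterate_eq ▸ (Function.IsFixedPt.iterate (f := Set.preimage ⇑T) hi n)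
      obtain ⟨n, hn | hn⟩ := (g.toAdd).eq_nat_or_neg
      · rw [hn, zpow_natCast]
        exact hp n
      · rw [hn, zpow_neg, zpow_natCast]
        conv_lhs => rw [← hp n]
        rw [← Set.preimage_comp]
        have : ⇑((T.toEquiv : Equiv.Perm X) ^ n) ∘ ⇑(((T.toEquiv : Equiv.Perm X) ^ n)⁻¹) = id := by
          funext x
          exact Equiv.apply_symm_apply ((T.toEquiv : Equiv.Perm X) ^ n) x
        rw [this, Set.preimage_id]
    rcases h1 s hs hinv with h | h
    · rw [eventuallyConst_set']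
      exact Or.inl (ae_eq_empty.2 h)
    · rw [eventuallyConst_set']
      right
      rw [ae_eq_univ]
      exact (prob_compl_eq_zero_iff hs).2 h
  · intro s hs
    have h1 := Pool.Agent.R291.QD.erg_lintegral (G := Multiplicative ℤ) μ
      (F := s.indicator fun _ => 1) (measurable_const.indicator hs)
    rw [lintegral_indicator hs, setLIntegral_const, one_mul] at h1
    rw [← h1]
    refine lintegral_congr fun z => ?_
    rw [lintegral_indicator hs, setLIntegral_const, one_mul]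

lemma erg_pos (μ : Measure X) [IsProbabilityMeasure μ] (T : X ≃ᵐ X) (hT : MeasurePreserving T μ μ)
    {D : Set X} (hD : MeasurableSet D) (h0 : μ D ≠ 0) :
    ∃ μ' : Measure X, IsProbabilityMeasure μ' ∧ Ergodic T μ' ∧ μ' D ≠ 0 := by
  obtain ⟨κ, hκ, he, hs, -⟩ := erg_dec μ T hT
  by_contra hc
  push Not at hc
  apply h0
  rw [hs D hD]
  refine lintegral_eq_zero_of_ae_eq_zero ?_
  filter_upwards [he] with z hz
  exact hc (κ z) (hκ z) hz

lemma erg_full (μ : Measure X) [IsProbabilityMeasure μ] (T : X ≃ᵐ X) (hT : MeasurePreserving T μ μ)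
    {p : X → Prop} (h1 : ∀ᵐ x ∂μ, p x) :
    ∃ μ' : Measure X, IsProbabilityMeasure μ' ∧ Ergodic T μ' ∧ ∀ᵐ x ∂μ', p x := by
  obtain ⟨κ, hκ, he, -, ha⟩ := erg_dec μ T hT
  obtain ⟨z, h3, h4⟩ := (he.and (ha p h1)).exists
  exact ⟨κ z, hκ z, h3, h4⟩

end Dec

end Pool.Agent.K1H28.ZO
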