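import Pool.Agent.K1H28.ZO.Cyc

/-!
# The finitary statement implies convergence
-/

set_option autoImplicit false
set_option linter.unusedSectionVars false

open MeasureTheory Filter Topology Finset
open scoped ENNReal

namespace Pool.Agent.K1H28.ZO

/-- the value of a symbol -/
noncomputable def vl (b : Bool) : ℝ := if b then 1 else 0

/-- the averages of a word -/
noncomputable def wav (ν : ℕ → ℕ) (w : ℕ → Bool) (k : ℕ) : ℝ :=
  (ν k : ℝ)⁻¹ * ∑ n ∈ Icc 1 (ν k), vl (w n) * vl (w (2 * n)) * vl (w (3 * n))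

/-- the averages of the word oscillate at all scales up to `K` -/
def Bad (ν : ℕ → ℕ) (F : ℕ → ℕ) (ε : ℝ) (K : ℕ) (w : ℕ → Bool) : Prop :=
  ∀ N ≤ K, ∃ p q : ℕ, (N ≤ p ∧ p ≤ F N) ∧ (N ≤ q ∧ q ≤ F N) ∧ ε < |wav ν w p - wav ν w q|

/-- the finitary statement -/
def Fini (ν : ℕ → ℕ) : Prop := ∀ ε : ℝ, 0 < ε → ∀ F : ℕ → ℕ, ∃ K M₀ : ℕ, ∀ (w : ℕ → Bool) (M : ℕ), M₀ ≤ M →
  ({i : ℕ | i < M ∧ Bad ν F ε K (fun n => w (i + n))}.ncard : ℝ) ≤ ε * M

section Name

open Classical in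
/-- the name of a point -/
noncomputable def name {X : Type*} (T : X → X) (A : Set X) (x : X) (n : ℕ) : Bool := decide (T^[n] x ∈ A)

lemma vl_name {X : Type*} (T : X → X) (A : Set X) (x : X) (n : ℕ) : vl (name T A x n) = ind A (T^[n] x) := by
  classical
  unfold vl name
  by_cases h : T^[n] x ∈ A
  · rw [ind_mem h, if_pos]
    exact decide_eq_true h
  · rw [ind_notMem h, if_neg]
    rw [decide_eq_true_iff]
    exact h

lemma name_shift {X : Type*} (T : X → X) (A : Set X) (x : X) (i : ℕ) :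
    (fun n => name T A x (i + n)) = name T A (T^[i] x) := by
  funext n
  unfold name
  rw [← Function.iterate_add_apply, Nat.add_comm]

lemma wav_name {X : Type*} (ν : ℕ → ℕ) (T : X → X) (A : Set X) (x : X) :
    wav ν (name T A x) = av ν T (ind A) (ind A) (ind A) x := by
  funext k
  unfold wav av
  simp only [vl_name]

end Name

/-- bounded oscillation for a sequence -/
def BadS (F : ℕ → ℕ) (ε : ℝ) (K : ℕ) (a : ℕ → ℝ) : Prop :=
  ∀ N ≤ K, ∃ p q : ℕ, (N ≤ p ∧ p ≤ F N) ∧ (N ≤ q ∧ q ≤ F N) ∧ ε < |a p - a q|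

lemma badS_meas {Y : Type*} [MeasurableSpace Y] {a : Y → ℕ → ℝ} (ha : ∀ k, Measurable fun y => a y k)
    (F : ℕ → ℕ) (ε : ℝ) (K : ℕ) : MeasurableSet {y | BadS F ε K (a y)} := by
  have e : {y | BadS F ε K (a y)} = ⋂ N : ℕ, ⋂ _ : N ≤ K, ⋃ p : ℕ, ⋃ q : ℕ,
      {y | (N ≤ p ∧ p ≤ F N) ∧ (N ≤ q ∧ q ≤ F N) ∧ ε < |a y p - a y q|} := by
    ext y
    simp only [BadS, Set.mem_ofPred_eq, Set.mem_iInter, Set.mem_iUnion]
  rw [e]
  refine MeasurableSet.iInter fun N => MeasurableSet.iInter fun _ => MeasurableSet.iUnion fun p =>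
    MeasurableSet.iUnion fun q => ?_
  by_cases h : (N ≤ p ∧ p ≤ F N) ∧ (N ≤ q ∧ q ≤ F N)
  · have e : {y | (N ≤ p ∧ p ≤ F N) ∧ (N ≤ q ∧ q ≤ F N) ∧ ε < |a y p - a y q|} =
        {y | ε < |a y p - a y q|} := by
      ext y
      exact ⟨fun h' => h'.2.2, fun h' => ⟨h.1, h.2, h'⟩⟩
    rw [e]
    exact measurableSet_lt measurable_const ((ha p).sub (ha q)).abs
  · have e : {y | (N ≤ p ∧ p ≤ F N) ∧ (N ≤ q ∧ q ≤ F N) ∧ ε < |a y p - a y q|} = ∅ := by
      ext y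
      simp only [Set.mem_ofPred_eq, Set.mem_empty_iff_false, iff_false]
      exact fun h' => h ⟨h'.1, h'.2.1⟩
    rw [e]
    exact MeasurableSet.empty

/-- the choice of the scales -/
lemma exists_scales {X : Type*} [MeasurableSpace X] {μ : Measure X} [IsProbabilityMeasure μ]
    {a : X → ℕ → ℝ} (ha : ∀ k, Measurable fun x => a x k) (h : ¬ ∀ᵐ x ∂μ, Cv (a x)) :
    ∃ (δ : ℝ) (F : ℕ → ℕ), 0 < δ ∧ μ {x | ∀ K, BadS F δ K (a x)} ≠ 0 := by
  have h1 : ∃ δ : ℝ, 0 < δ ∧ μ {x | Osc (a x) δ} ≠ 0 := by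
    by_contra hc
    push Not at hc
    apply h
    have h2 : ∀ᵐ x ∂μ, ∀ n : ℕ, ¬ Osc (a x) (1 / ((n : ℝ) + 1)) := by
      rw [ae_all_iff]
      intro n
      rw [ae_iff]
      simp only [not_not]
      exact hc _ (by positivity)
    filter_upwards [h2] with x hx
    by_contra hcv
    obtain ⟨δ, hδ, ho⟩ := osc_of_not_cv hcv
    obtain ⟨n, hn⟩ := exists_nat_one_div_lt hδ
    exact hx n (osc_mono hn.le ho)
  obtain ⟨δ, hδ, hμ⟩ := h1
  set O : Set X := {x | Osc (a x) δ} with hO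
  have hOm : MeasurableSet O := osc_measurableSet ha δ
  obtain ⟨ε', hε'0, hε'⟩ := ENNReal.exists_pos_sum_of_countable hμ ℕ
  have h2 : ∀ N : ℕ, ∃ R : ℕ, μ {x | x ∈ O ∧ ¬ ∃ p q : ℕ, (N ≤ p ∧ p ≤ R) ∧ (N ≤ q ∧ q ≤ R) ∧
      δ < |a x p - a x q|} < ε' N := by
    intro N
    set S : ℕ → Set X := fun R => {x | x ∈ O ∧ ¬ ∃ p q : ℕ, (N ≤ p ∧ p ≤ R) ∧ (N ≤ q ∧ q ≤ R) ∧
      δ < |a x p - a x q|} with hS
    have hSm : ∀ R, NullMeasurableSet (S R) μ := by
      intro R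
      refine (hOm.inter ?_).nullMeasurableSet
      have e : {x | ¬ ∃ p q : ℕ, (N ≤ p ∧ p ≤ R) ∧ (N ≤ q ∧ q ≤ R) ∧ δ < |a x p - a x q|} =
          {x | ∃ p q : ℕ, (N ≤ p ∧ p ≤ R) ∧ (N ≤ q ∧ q ≤ R) ∧ δ < |a x p - a x q|}ᶜ := rfl
      change MeasurableSet {x | ¬ ∃ p q : ℕ, (N ≤ p ∧ p ≤ R) ∧ (N ≤ q ∧ q ≤ R) ∧ δ < |a x p - a x q|}
      rw [e]
      refine MeasurableSet.compl ?_
      have e2 : {x | ∃ p q : ℕ, (N ≤ p ∧ p ≤ R) ∧ (N ≤ q ∧ q ≤ R) ∧ δ < |a x p - a x q|} =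
          ⋃ p : ℕ, ⋃ q : ℕ, {x | (N ≤ p ∧ p ≤ R) ∧ (N ≤ q ∧ q ≤ R) ∧ δ < |a x p - a x q|} := by
        ext x
        simp only [Set.mem_ofPred_eq, Set.mem_iUnion]
      rw [e2]
      refine MeasurableSet.iUnion fun p => MeasurableSet.iUnion fun q => ?_
      by_cases hpq : (N ≤ p ∧ p ≤ R) ∧ (N ≤ q ∧ q ≤ R)
      · have e3 : {x | (N ≤ p ∧ p ≤ R) ∧ (N ≤ q ∧ q ≤ R) ∧ δ < |a x p - a x q|} =
            {x | δ < |a x p - a x q|} := by
          ext x
          exact ⟨fun h' => h'.2.2, fun h' => ⟨hpq.1, hpq.2, h'⟩⟩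
        rw [e3]
        exact measurableSet_lt measurable_const ((ha p).sub (ha q)).abs
      · have e3 : {x | (N ≤ p ∧ p ≤ R) ∧ (N ≤ q ∧ q ≤ R) ∧ δ < |a x p - a x q|} = ∅ := by
          ext x
          simp only [Set.mem_ofPred_eq, Set.mem_empty_iff_false, iff_false]
          exact fun h' => hpq ⟨h'.1, h'.2.1⟩
        rw [e3]
        exact MeasurableSet.empty
    have hanti : Antitone S := by
      rintro R R' hR x ⟨hx1, hx2⟩
      refine ⟨hx1, fun ⟨p, q, hp, hq, hpq⟩ => hx2 ⟨p, q, ⟨hp.1, hp.2.trans hR⟩, ⟨hq.1, hq.2.trans hR⟩, hpq⟩⟩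
    have h0 : μ (⋂ R, S R) = 0 := by
      have : (⋂ R, S R) = ∅ := by
        ext x
        simp only [Set.mem_iInter, Set.mem_empty_iff_false, iff_false]
        intro hx
        obtain ⟨p, q, hp, hq, hpq⟩ := (hx 0).1 N
        exact (hx (max p q)).2 ⟨p, q, ⟨hp, le_max_left _ _⟩, ⟨hq, le_max_right _ _⟩, hpq⟩
      rw [this, measure_empty]
    have ht := tendsto_measure_iInter_atTop hSm hanti ⟨0, measure_ne_top _ _⟩
    rw [h0] at ht
    have hpos : (0 : ℝ≥0∞) < ε' N := by exact_mod_cast hε'0 N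
    exact (ht.eventually (gt_mem_nhds hpos)).exists
  choose F hF using h2
  refine ⟨δ, F, hδ, fun h0 => ?_⟩
  have h3 : O ⊆ {x | ∀ K, BadS F δ K (a x)} ∪ ⋃ N : ℕ, {x | x ∈ O ∧ ¬ ∃ p q : ℕ, (N ≤ p ∧ p ≤ F N) ∧
      (N ≤ q ∧ q ≤ F N) ∧ δ < |a x p - a x q|} := by
    intro x hx
    by_cases hb : ∀ K, BadS F δ K (a x)
    · exact Or.inl hb
    · right
      push Not at hb
      obtain ⟨K, hK⟩ := hb
      unfold BadS at hK
      rw [not_forall] at hK
      obtain ⟨N, hN⟩ := hK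
      rw [Classical.not_imp] at hN
      exact Set.mem_iUnion.2 ⟨N, hx, hN.2⟩
  have h4 : μ O ≤ ∑' N, (ε' N : ℝ≥0∞) := by
    refine (measure_mono h3).trans ((measure_union_le _ _).trans ?_)
    rw [h0, zero_add]
    exact (measure_iUnion_le _).trans (ENNReal.tsum_le_tsum fun N => (hF N).le)
  exact absurd (lt_of_le_of_lt h4 hε') (lt_irrefl _)

theorem dset_of_fini {ν : ℕ → ℕ} (H : Fini ν) : DSet ν := by
  intro X _ μ _ T hT A hA
  by_contra hc
  have hTm := hT.measurable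
  have hindm : Measurable (ind A) := by
    unfold ind
    exact measurable_const.indicator hA
  have ham : ∀ k, Measurable fun x => av ν T (ind A) (ind A) (ind A) x k :=
    av_meas hTm hindm hindm hindm
  obtain ⟨δ, F, hδ, hμ⟩ := exists_scales ham hc
  set G : Set X := {x | ∀ K, BadS F δ K (av ν T (ind A) (ind A) (ind A) x)} with hG
  set g : ℝ := (μ G).toReal with hg
  have hg0 : 0 < g := ENNReal.toReal_pos hμ (measure_ne_top _ _)
  set ε : ℝ := min δ (g / 2) with hε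
  have hε0 : 0 < ε := lt_min hδ (by linarith)
  obtain ⟨K, M₀, hK⟩ := H ε hε0 F
  set M : ℕ := max M₀ 1 with hM
  have hM1 : 1 ≤ M := le_max_right _ _
  set Bd : Set X := {x | BadS F ε K (av ν T (ind A) (ind A) (ind A) x)} with hBd
  have hBdm : MeasurableSet Bd := badS_meas ham F ε K
  have hsub : G ⊆ Bd := by
    intro x hx N hN
    obtain ⟨p, q, hp, hq, hpq⟩ := hx K N hN
    exact ⟨p, q, hp, hq, (min_le_left _ _).trans_lt hpq⟩
  have hpt : ∀ x, ∑ i ∈ range M, (T^[i] ⁻¹' Bd).indicator (fun _ => (1 : ℝ≥0∞)) x ≤ ENNReal.ofReal (ε * M) := by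
    intro x
    classical
    have h1 := hK (name T A x) M (le_max_left _ _)
    have h2 : {i : ℕ | i < M ∧ Bad ν F ε K (fun n => name T A x (i + n))} =
        ((range M).filter fun i => T^[i] x ∈ Bd : Finset ℕ) := by
      ext i
      rw [Finset.coe_filter, Set.mem_ofPred_eq, Set.mem_ofPred_eq, name_shift, Finset.mem_range]
      unfold Bad
      rw [wav_name]
      exact Iff.rfl
    rw [h2, Set.ncard_coe_finset] at h1
    have h3 : ∑ i ∈ range M, (T^[i] ⁻¹' Bd).indicator (fun _ => (1 : ℝ≥0∞)) x =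
        (((range M).filter fun i => T^[i] x ∈ Bd).card : ℝ≥0∞) := by
      rw [Finset.card_filter, Nat.cast_sum]
      refine Finset.sum_congr rfl fun i _ => ?_
      by_cases h : T^[i] x ∈ Bd
      · rw [Set.indicator_of_mem (by exact h), if_pos h, Nat.cast_one]
      · rw [Set.indicator_of_notMem (by exact h), if_neg h, Nat.cast_zero]
    rw [h3, ← ENNReal.ofReal_natCast]
    exact ENNReal.ofReal_le_ofReal h1
  have hint : (M : ℝ≥0∞) * μ Bd ≤ ENNReal.ofReal (ε * M) := by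
    have h1 : ∫⁻ x, ∑ i ∈ range M, (T^[i] ⁻¹' Bd).indicator (fun _ => (1 : ℝ≥0∞)) x ∂μ = M * μ Bd := by
      rw [lintegral_finsetSum' _ fun i _ => (measurable_const.indicator (hTm.iterate i hBdm)).aemeasurable]
      have h2 : ∀ i ∈ range M, ∫⁻ x, (T^[i] ⁻¹' Bd).indicator (fun _ => (1 : ℝ≥0∞)) x ∂μ = μ Bd := by
        intro i _
        rw [lintegral_indicator (hTm.iterate i hBdm), setLIntegral_const, one_mul]
        exact (hT.iterate i).measure_preimage hBdm.nullMeasurableSet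
      rw [Finset.sum_congr rfl h2, Finset.sum_const, Finset.card_range, nsmul_eq_mul]
    rw [← h1]
    refine (lintegral_mono hpt).trans ?_
    rw [lintegral_const, measure_univ, mul_one]
  have h5 : (M : ℝ) * (μ Bd).toReal ≤ ε * M := by
    have := ENNReal.toReal_mono ENNReal.ofReal_ne_top hint
    rwa [ENNReal.toReal_mul, ENNReal.toReal_natCast, ENNReal.toReal_ofReal (by positivity)] at this
  have hMr : (0 : ℝ) < M := by exact_mod_cast hM1
  have h6 : (μ Bd).toReal ≤ ε := by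
    by_contra h
    push Not at h
    nlinarith
  have h7 : g ≤ (μ Bd).toReal := ENNReal.toReal_mono (measure_ne_top _ _) (measure_mono hsub)
  have h8 : ε ≤ g / 2 := min_le_right _ _
  linarith

end Pool.Agent.K1H28.ZO
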