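import Pool.Agent.Y311.DN.Comm
import Pool.Agent.K1H28.ZO.Dil

/-!
# From one sequence of scales to all scales
-/

set_option autoImplicit false
set_option linter.unusedSectionVars false

open MeasureTheory Filter Topology Finset
open scoped ENNReal

namespace Pool.Agent.K1H28.ZO

/-- the averages of a sequence -/
noncomputable def sav (c : ℕ → ℝ) (N : ℕ) : ℝ := (N : ℝ)⁻¹ * ∑ n ∈ Icc 1 N, c n

lemma sum_abs {c : ℕ → ℝ} (hc : ∀ n, |c n| ≤ 1) (s : Finset ℕ) : |∑ n ∈ s, c n| ≤ s.card := by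
  refine (Finset.abs_sum_le_sum_abs _ _).trans ?_
  refine (Finset.sum_le_card_nsmul _ _ 1 fun i _ => hc _).trans ?_
  simp

lemma sav_slow {c : ℕ → ℝ} (hc : ∀ n, |c n| ≤ 1) {M N : ℕ} (hM : 0 < M) (hMN : M ≤ N) :
    |sav c N - sav c M| ≤ 2 * ((N : ℝ) - M) / N := by
  have hMr : (0 : ℝ) < M := by exact_mod_cast hM
  have hMNr : (M : ℝ) ≤ N := by exact_mod_cast hMN
  have hNr : (0 : ℝ) < N := by linarith
  unfold sav
  have hsplit : ∑ n ∈ Icc 1 N, c n = ∑ n ∈ Icc 1 M, c n + ∑ n ∈ Ioc M N, c n := by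
    rw [← Finset.sum_union]
    · congr 1
      ext n
      simp only [Finset.mem_Icc, Finset.mem_union, Finset.mem_Ioc]
      omega
    · rw [Finset.disjoint_left]
      intro n h1 h2
      rw [Finset.mem_Icc] at h1
      rw [Finset.mem_Ioc] at h2
      omega
  have h1 := sum_abs hc (Icc 1 M)
  have h2 := sum_abs hc (Ioc M N)
  rw [Nat.card_Icc] at h1
  rw [Nat.card_Ioc, Nat.cast_sub hMN] at h2
  rw [show M + 1 - 1 = M by omega] at h1
  have e : (N : ℝ)⁻¹ * (∑ n ∈ Icc 1 M, c n + ∑ n ∈ Ioc M N, c n) - (M : ℝ)⁻¹ * ∑ n ∈ Icc 1 M, c n =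
      (N : ℝ)⁻¹ * ∑ n ∈ Ioc M N, c n - (((N : ℝ) - M) / (N * M)) * ∑ n ∈ Icc 1 M, c n := by
    field_simp
    ring
  rw [hsplit, e]
  refine (abs_sub _ _).trans ?_
  have hnn : 0 ≤ ((N : ℝ) - M) / (N * M) := div_nonneg (by linarith) (by positivity)
  rw [abs_mul, abs_mul, abs_of_pos (inv_pos.2 hNr), abs_of_nonneg hnn]
  have a1 : (N : ℝ)⁻¹ * |∑ n ∈ Ioc M N, c n| ≤ (N : ℝ)⁻¹ * ((N : ℝ) - M) :=
    mul_le_mul_of_nonneg_left h2 (by positivity)
  have a2 : ((N : ℝ) - M) / (N * M) * |∑ n ∈ Icc 1 M, c n| ≤ ((N : ℝ) - M) / (N * M) * M :=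
    mul_le_mul_of_nonneg_left h1 (div_nonneg (by linarith) (by positivity))
  have e2 : ((N : ℝ) - M) / (N * M) * M = (N : ℝ)⁻¹ * ((N : ℝ) - M) := by field_simp
  have e3 : 2 * ((N : ℝ) - M) / N = (N : ℝ)⁻¹ * ((N : ℝ) - M) + (N : ℝ)⁻¹ * ((N : ℝ) - M) := by
    field_simp
    ring
  rw [e3]
  linarith

/-- the index of the scale -/
lemma exists_index {ν : ℕ → ℕ} (hν : Tendsto ν atTop atTop) (K : ℕ) :
    ∃ N₀ : ℕ, ∀ N ≥ N₀, ∃ k ≥ K, ν k ≤ N ∧ N < ν (k + 1) := by
  refine ⟨ν K, fun N hN => ?_⟩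
  have hex : ∃ j : ℕ, N < ν (K + j + 1) := by
    obtain ⟨j, hj⟩ := (tendsto_atTop.1 hν (N + 1)).exists_forall_of_atTop
    refine ⟨j, ?_⟩
    have := hj (K + j + 1) (by omega)
    omega
  classical
  refine ⟨K + Nat.find hex, Nat.le_add_right _ _, ?_, Nat.find_spec hex⟩
  rcases Nat.eq_zero_or_pos (Nat.find hex) with h0 | h0
  · rw [h0]
    exact hN
  · have h1 := Nat.find_min hex (m := Nat.find hex - 1) (by omega)
    rw [show K + (Nat.find hex - 1) + 1 = K + Nat.find hex by omega] at h1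
    exact not_lt.1 h1

theorem sav_full {ν : ℕ → ℕ} (hν : Tendsto ν atTop atTop) {C : ℕ} (hC : ∀ k, ν (k + 1) ≤ C * ν k)
    {c : ℕ → ℝ} (hc : ∀ n, |c n| ≤ 1) {L : ℝ}
    (h : ∀ p q : ℕ, 0 < p → 0 < q → Tendsto (fun k => sav c (p * ν k / q)) atTop (𝓝 L)) :
    Tendsto (sav c) atTop (𝓝 L) := by
  rw [Metric.tendsto_atTop]
  intro ε hε
  obtain ⟨q, hq⟩ := exists_nat_gt (8 / ε)
  have hq0 : (0 : ℝ) < q := lt_trans (by positivity) hq
  have hqn : 0 < q := by exact_mod_cast hq0
  have hK : ∃ K : ℕ, ∀ p ∈ Icc q (C * q), ∀ k ≥ K, |sav c (p * ν k / q) - L| < ε / 2 := by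
    have h1 : ∀ᶠ k in atTop, ∀ p ∈ Icc q (C * q), |sav c (p * ν k / q) - L| < ε / 2 := by
      rw [Filter.eventually_all_finset]
      intro p hp
      rw [Finset.mem_Icc] at hp
      have h2 := h p q (lt_of_lt_of_le hqn hp.1) hqn
      rw [Metric.tendsto_atTop] at h2
      obtain ⟨k₀, hk₀⟩ := h2 (ε / 2) (half_pos hε)
      filter_upwards [eventually_ge_atTop k₀] with k hk
      have := hk₀ k hk
      rwa [Real.dist_eq] at this
    obtain ⟨K, hK⟩ := h1.exists_forall_of_atTop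
    exact ⟨K, fun p hp k hk => hK k hk p hp⟩
  obtain ⟨K, hK⟩ := hK
  obtain ⟨N₀, hN₀⟩ := exists_index hν K
  refine ⟨max N₀ q, fun N hN => ?_⟩
  obtain ⟨k, hk, hk1, hk2⟩ := hN₀ N ((le_max_left _ _).trans hN)
  have hNq : q ≤ N := (le_max_right _ _).trans hN
  have hkC : N < C * ν k := lt_of_lt_of_le hk2 (hC k)
  have hνk : 0 < ν k := by
    rcases Nat.eq_zero_or_pos (ν k) with h0 | h0
    · rw [h0, mul_zero] at hkC
      omega
    · exact h0
  set p : ℕ := q * N / ν k with hp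
  set M : ℕ := p * ν k / q with hM
  have hp1 : q ≤ p := by
    rw [hp, Nat.le_div_iff_mul_le hνk]
    exact Nat.mul_le_mul_left q hk1
  have hp2 : p ≤ C * q := by
    rw [hp]
    refine Nat.div_le_of_le_mul ?_
    calc q * N ≤ q * (C * ν k) := Nat.mul_le_mul_left q hkC.le
      _ = ν k * (C * q) := by ring
  have hpν : p * ν k ≤ q * N := Nat.div_mul_le_self _ _
  have hpν' : q * N < (p + 1) * ν k := by
    rw [hp]
    have := Nat.lt_div_mul_add (a := q * N) hνk
    linarith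
  have hMN : M ≤ N := by
    rw [hM]
    exact Nat.div_le_of_le_mul hpν
  have hMν : ν k ≤ M := by
    rw [hM, Nat.le_div_iff_mul_le hqn, mul_comm]
    exact Nat.mul_le_mul_right _ hp1
  have hM0 : 0 < M := lt_of_lt_of_le hνk hMν
  have hMq : p * ν k < (M + 1) * q := by
    rw [hM]
    have := Nat.lt_div_mul_add (a := p * ν k) hqn
    linarith
  have h1 := sav_slow hc hM0 hMN
  have h2 := hK p (Finset.mem_Icc.2 ⟨hp1, hp2⟩) k hk
  have hNr : (0 : ℝ) < N := by
    have : (0 : ℕ) < N := lt_of_lt_of_le hqn hNq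
    exact_mod_cast this
  have h3 : 2 * ((N : ℝ) - M) / N ≤ 4 / q := by
    have a1 : (q : ℝ) * N < ((p : ℝ) + 1) * ν k := by exact_mod_cast hpν'
    have a2 : (p : ℝ) * ν k < ((M : ℝ) + 1) * q := by exact_mod_cast hMq
    have a3 : (ν k : ℝ) ≤ N := by exact_mod_cast hk1
    have a4 : (q : ℝ) ≤ N := by exact_mod_cast hNq
    rw [div_le_div_iff₀ hNr hq0]
    nlinarith
  have h4 : 4 / (q : ℝ) < ε / 2 := by
    rw [div_lt_iff₀ hq0]
    rw [div_lt_iff₀ hε] at hq
    nlinarith
  rw [Real.dist_eq]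
  have e : sav c N - L = (sav c N - sav c M) + (sav c M - L) := by ring
  rw [e]
  refine (abs_add_le _ _).trans_lt ?_
  linarith

/-- the limit in the mean determines the limit almost everywhere -/
lemma lim_ident {X : Type} [MeasurableSpace X] {μ : Measure X} [IsProbabilityMeasure μ] {a : ℕ → X → ℝ}
    (ham : ∀ k, Measurable (a k)) (hab : ∀ k x, |a k x| ≤ 1) {F : X → ℝ} (hF : Measurable F) {C : ℝ}
    (hFC : ∀ x, |F x| ≤ C) (h2 : Tendsto (fun k => ∫ x, (a k x - F x) ^ 2 ∂μ) atTop (𝓝 0))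
    (hc : ∀ᵐ x ∂μ, Cv fun k => a k x) : ∀ᵐ x ∂μ, Tendsto (fun k => a k x) atTop (𝓝 (F x)) := by
  classical
  set L : X → ℝ := fun x => if h : Cv (fun k => a k x) then h.choose else 0 with hL
  have hLt : ∀ᵐ x ∂μ, Tendsto (fun k => a k x) atTop (𝓝 (L x)) := by
    filter_upwards [hc] with x hx
    rw [hL]
    simp only [hx, dif_pos]
    exact hx.choose_spec
  have hb : ∀ k x, ‖(a k x - F x) ^ 2‖ ≤ (1 + C) ^ 2 := by
    intro k x
    rw [Real.norm_eq_abs, abs_pow]
    refine pow_le_pow_left₀ (abs_nonneg _) ?_ 2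
    exact (abs_sub _ _).trans (add_le_add (hab k x) (hFC x))
  have hlim : ∀ᵐ x ∂μ, Tendsto (fun k => (a k x - F x) ^ 2) atTop (𝓝 ((L x - F x) ^ 2)) := by
    filter_upwards [hLt] with x hx
    exact (hx.sub_const _).pow 2
  have hm : ∀ k, AEStronglyMeasurable (fun x => (a k x - F x) ^ 2) μ := fun k =>
    (((ham k).sub hF).pow_const 2).aestronglyMeasurable
  have h3 := tendsto_integral_of_dominated_convergence (fun _ => (1 + C) ^ 2) hm (integrable_const _)
    (fun k => Eventually.of_forall fun x => hb k x) hlim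
  have h4 : ∫ x, (L x - F x) ^ 2 ∂μ = 0 := tendsto_nhds_unique h3 h2
  have h5 : AEStronglyMeasurable (fun x => (L x - F x) ^ 2) μ :=
    aestronglyMeasurable_of_tendsto_ae atTop hm hlim
  have h6 : ∀ᵐ x ∂μ, ‖(L x - F x) ^ 2‖ ≤ (1 + C) ^ 2 := by
    filter_upwards [hlim] with x hx
    exact le_of_tendsto hx.norm (Eventually.of_forall fun k => hb k x)
  have h7 := (integral_eq_zero_iff_of_nonneg_ae (Eventually.of_forall fun x => sq_nonneg _)
    (Integrable.of_bound h5 _ h6)).1 h4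
  filter_upwards [h7, hLt] with x h8 h9
  have h10 : L x = F x := by
    have := pow_eq_zero_iff (two_ne_zero) |>.1 h8
    linarith
  rwa [h10] at h9

/-- the limit in the mean -/
lemma l2_lim {X : Type} [MeasurableSpace X] {μ : Measure X} [IsProbabilityMeasure μ] (T : X ≃ᵐ X)
    (hT : MeasurePreserving T μ μ) {f g h : X → ℝ} (hf : Measurable f) (hg : Measurable g)
    (hh : Measurable h) (hfb : ∀ x, |f x| ≤ 1) (hgb : ∀ x, |g x| ≤ 1) (hhb : ∀ x, |h x| ≤ 1) :
    ∃ F : X → ℝ, Measurable F ∧ (∃ C, ∀ x, |F x| ≤ C) ∧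
      Tendsto (fun N => ∫ x, (sav (cc T f g h x) N - F x) ^ 2 ∂μ) atTop (𝓝 0) := by
  have hmem : ∀ (u : X → ℝ), Measurable u → (∀ x, |u x| ≤ 1) → MemLp (fun x => (u x : ℂ)) ⊤ μ := by
    intro u hu hub
    exact MemLp.of_bound (Complex.measurable_ofReal.comp hu).aestronglyMeasurable 1
      (Eventually.of_forall fun x => by rw [Complex.norm_real, Real.norm_eq_abs]; exact hub _)
  obtain ⟨F, C, hFm, hFC, h2, -⟩ := Pool.Agent.Y311.DN.pow_dens (μ := μ)
    (T := (T.toEquiv : Equiv.Perm X)) T.symm.measurable hT (k := 3)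
    (fun j => ((j : ℕ) : ℤ) + 1) (fun _ => 0)
    (f := ![fun x => (f x : ℂ), fun x => (g x : ℂ), fun x => (h x : ℂ)])
    (by
      intro j
      fin_cases j
      · exact hmem f hf hfb
      · exact hmem g hg hgb
      · exact hmem h hh hhb)
    (A := fun N x => ((sav (cc T f g h x) N : ℝ) : ℂ)) (by
      intro N x
      unfold sav cc
      push_cast
      congr 1
      refine Finset.sum_congr rfl fun n _ => ?_
      have hz : ∀ (j n : ℕ), ((T.toEquiv : Equiv.Perm X) ^ (((j : ℤ) + 1) * (n : ℤ) + 0)) x =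
          T^[(j + 1) * n] x := by
        intro j n
        rw [add_zero, show ((j : ℤ) + 1) * (n : ℤ) = (((j + 1) * n : ℕ) : ℤ) by push_cast; ring,
          zpow_natCast, ← Equiv.Perm.iterate_eq_pow]
        rfl
      rw [Fin.prod_univ_three]
      have z0 := hz 0 n
      have z1 := hz 1 n
      have z2 := hz 2 n
      simp only [Fin.val_zero, Fin.val_one, Fin.val_two, Matrix.cons_val_zero, Matrix.cons_val_one,
        Matrix.cons_val_two]
      rw [z0, z1, z2, show (0 + 1) * n = n by ring, show (1 + 1) * n = 2 * n by ring,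
        show (2 + 1) * n = 3 * n by ring]
      rfl)
  refine ⟨fun x => (F x).re, Complex.measurable_re.comp hFm, ⟨C, fun x => ?_⟩, ?_⟩
  · exact (Complex.abs_re_le_norm _).trans (hFC x)
  · refine squeeze_zero (fun N => integral_nonneg fun x => sq_nonneg _) (fun N => ?_) h2
    have hsm : Measurable fun x => sav (cc T f g h x) N := by
      unfold sav cc
      refine Measurable.const_mul (Finset.measurable_fun_sum _ fun n _ => ?_) _
      exact ((hf.comp (T.measurable.iterate _)).mul (hg.comp (T.measurable.iterate _))).mul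
        (hh.comp (T.measurable.iterate _))
    have hle : ∀ x, (sav (cc T f g h x) N - (F x).re) ^ 2 ≤ ‖((sav (cc T f g h x) N : ℝ) : ℂ) - F x‖ ^ 2 := by
      intro x
      have h1 := Complex.abs_re_le_norm (((sav (cc T f g h x) N : ℝ) : ℂ) - F x)
      rw [Complex.sub_re, Complex.ofReal_re] at h1
      rw [← sq_abs (sav (cc T f g h x) N - (F x).re)]
      exact pow_le_pow_left₀ (abs_nonneg _) h1 2
    have hsb : ∀ x, |sav (cc T f g h x) N| ≤ 1 := by
      intro x
      unfold sav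
      rw [abs_mul, abs_inv, Nat.abs_cast]
      rcases Nat.eq_zero_or_pos N with h0 | h0
      · rw [h0]; simp
      · have hN : (0 : ℝ) < N := by exact_mod_cast h0
        rw [inv_mul_le_iff₀ hN, mul_one]
        refine (sum_abs (cc_bound hfb hgb hhb x) _).trans ?_
        rw [Nat.card_Icc]
        simp
    refine integral_mono_of_nonneg (Eventually.of_forall fun x => sq_nonneg _) ?_
      (Eventually.of_forall hle)
    refine Integrable.of_bound (C := (1 + C) ^ 2) ?_ (Eventually.of_forall fun x => ?_)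
    · exact (((Complex.measurable_ofReal.comp hsm).sub hFm).norm.pow_const 2).aestronglyMeasurable
    · rw [Real.norm_eq_abs, abs_pow, abs_norm]
      refine pow_le_pow_left₀ (norm_nonneg _) ?_ 2
      refine (norm_sub_le _ _).trans (add_le_add ?_ (hFC x))
      rw [Complex.norm_real, Real.norm_eq_abs]
      exact hsb x

theorem full_conv {ν : ℕ → ℕ} (hν : Tendsto ν atTop atTop) {C : ℕ} (hC : ∀ k, ν (k + 1) ≤ C * ν k)
    (H : Q1 ν) {X : Type} [MeasurableSpace X] {μ : Measure X} [IsProbabilityMeasure μ] (T : X ≃ᵐ X)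
    (hT : MeasurePreserving T μ μ) {f g h : X → ℝ} (hf : Measurable f) (hg : Measurable g)
    (hh : Measurable h) (hfb : ∀ x, |f x| ≤ 1) (hgb : ∀ x, |g x| ≤ 1) (hhb : ∀ x, |h x| ≤ 1) :
    ∀ᵐ x ∂μ, Cv (sav (cc T f g h x)) := by
  obtain ⟨F, hFm, ⟨CF, hFC⟩, h2⟩ := l2_lim T hT hf hg hh hfb hgb hhb
  have hsm : ∀ N, Measurable fun x => sav (cc T f g h x) N := by
    intro N
    unfold sav cc
    refine Measurable.const_mul (Finset.measurable_fun_sum _ fun n _ => ?_) _
    exact ((hf.comp (T.measurable.iterate _)).mul (hg.comp (T.measurable.iterate _))).mul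
      (hh.comp (T.measurable.iterate _))
  have hsb : ∀ N x, |sav (cc T f g h x) N| ≤ 1 := by
    intro N x
    unfold sav
    rw [abs_mul, abs_inv, Nat.abs_cast]
    rcases Nat.eq_zero_or_pos N with h0 | h0
    · rw [h0]; simp
    · have hN : (0 : ℝ) < N := by exact_mod_cast h0
      rw [inv_mul_le_iff₀ hN, mul_one]
      refine (sum_abs (cc_bound hfb hgb hhb x) _).trans ?_
      rw [Nat.card_Icc]
      simp
  have hν' : Tendsto (fun k => (ν k : ℝ)) atTop atTop := tendsto_natCast_atTop_atTop.comp hν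
  have hpq : ∀ p q : ℕ, 0 < p → 0 < q →
      ∀ᵐ x ∂μ, Tendsto (fun k => sav (cc T f g h x) (p * ν k / q)) atTop (𝓝 (F x)) := by
    intro p q hp hq
    have hN : Tendsto (fun k => p * ν k / q) atTop atTop := by
      rw [tendsto_atTop]
      intro b
      filter_upwards [tendsto_atTop.1 hν (b * q)] with k hk
      rw [Nat.le_div_iff_mul_le hq]
      calc b * q ≤ ν k := hk
        _ ≤ p * ν k := Nat.le_mul_of_pos_left _ hp
    refine lim_ident (fun k => hsm _) (fun k x => hsb _ x) hFm hFC (h2.comp hN) ?_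
    filter_upwards [pqdil hν H hT hf hg hh hfb hgb hhb p q hq] with x hx
    have hqp : 0 < (q : ℝ) / p := by positivity
    refine cv_of_diff (cv_const_mul ((q : ℝ) / p) hx) ?_
    have h0 : Tendsto (fun k => (ν k : ℝ)⁻¹ * ((q : ℝ) / p)) atTop (𝓝 0) := by
      have := hν'.inv_tendsto_atTop.mul_const ((q : ℝ) / p)
      rwa [zero_mul] at this
    refine squeeze_zero_norm' ?_ h0
    filter_upwards [tendsto_atTop.1 hν q, tendsto_atTop.1 hν 1] with k hk hk1
    set M : ℕ := p * ν k / q with hM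
    have hM1 : 1 ≤ M := by
      rw [hM, Nat.le_div_iff_mul_le hq, one_mul]
      exact hk.trans (Nat.le_mul_of_pos_left _ hp)
    have hMr : (0 : ℝ) < M := by exact_mod_cast hM1
    have hνr : (0 : ℝ) < ν k := by exact_mod_cast hk1
    have hpr : (0 : ℝ) < p := by exact_mod_cast hp
    have hqr : (0 : ℝ) < q := by exact_mod_cast hq
    have b1 : (M : ℝ) * q ≤ p * ν k := by exact_mod_cast Nat.div_mul_le_self _ _
    have b2 : (p : ℝ) * ν k < ((M : ℝ) + 1) * q := by
      have : p * ν k < (M + 1) * q := by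
        rw [hM]
        have := Nat.lt_div_mul_add (a := p * ν k) hq
        linarith
      exact_mod_cast this
    unfold sav
    set S : ℝ := ∑ n ∈ Icc 1 M, cc T f g h x n with hS
    have hSb : |S| ≤ M := by
      refine (sum_abs (cc_bound hfb hgb hhb x) _).trans ?_
      rw [Nat.card_Icc]
      simp
    have e : (M : ℝ)⁻¹ * S - (q : ℝ) / p * ((ν k : ℝ)⁻¹ * S) =
        S * ((p * ν k - M * q) / (M * (p * ν k))) := by
      field_simp
    have hnn : 0 ≤ (p * ν k - M * q) / (M * (p * (ν k : ℝ))) := div_nonneg (by linarith) (by positivity)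
    rw [e, Real.norm_eq_abs, abs_mul, abs_of_nonneg hnn]
    have b3 : (p * ν k - M * q) / (M * (p * (ν k : ℝ))) ≤ q / (M * (p * (ν k : ℝ))) :=
      div_le_div_of_nonneg_right (by linarith) (by positivity)
    calc |S| * ((p * ν k - M * q) / (M * (p * (ν k : ℝ)))) ≤ M * (q / (M * (p * (ν k : ℝ)))) :=
          mul_le_mul hSb b3 (div_nonneg (by linarith) (by positivity)) hMr.le
      _ = (ν k : ℝ)⁻¹ * ((q : ℝ) / p) := by field_simp
  have hall : ∀ᵐ x ∂μ, ∀ p q : ℕ, 0 < p → 0 < q →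
      Tendsto (fun k => sav (cc T f g h x) (p * ν k / q)) atTop (𝓝 (F x)) := by
    rw [ae_all_iff]; intro p
    rw [ae_all_iff]; intro q
    by_cases hp : 0 < p
    · by_cases hq : 0 < q
      · filter_upwards [hpq p q hp hq] with x hx _ _
        exact hx
      · exact Eventually.of_forall fun x _ h' => absurd h' hq
    · exact Eventually.of_forall fun x h' => absurd h' hp
  filter_upwards [hall] with x hx
  exact ⟨F x, sav_full hν hC (cc_bound hfb hgb hhb x) hx⟩

/-- Convergence along one sequence of scales with bounded ratios implies convergence. -/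
theorem q1_of_scales {ν : ℕ → ℕ} (hν : Tendsto ν atTop atTop) {C : ℕ} (hC : ∀ k, ν (k + 1) ≤ C * ν k)
    (H : Q1 ν) : Q1 id := by
  by_contra hq
  have hfin : ¬ Fini id := fun h => hq (q1_of_fini h)
  obtain ⟨m, hm, hi, hD⟩ := exists_two hfin
  have hi' : MeasurePreserving (shE Bool) m m := hi
  have hu : Measurable fun w : ℤ → Bool => vl (w 0) := vl_meas.comp (measurable_pi_apply 0)
  have hub : ∀ w : ℤ → Bool, |vl (w 0)| ≤ 1 := fun w => by
    rw [abs_of_nonneg (vl_01 _).1]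
    exact (vl_01 _).2
  have h1 := full_conv hν hC H (shE Bool) hi' hu hu hu hub hub hub
  apply hD
  have h3 : ∀ᵐ w ∂m, w ∉ {w : ℤ → Bool | ¬ Cv (wav id (ps w))} := by
    filter_upwards [h1] with w hw
    rw [not_not, wav_shE]
    exact hw
  rw [ae_iff] at h3
  simpa using h3

end Pool.Agent.K1H28.ZO
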