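import Pool.Agent.K1H28.ZO.Samp

/-!
# Reduction to ergodic measures on binary words
-/

set_option autoImplicit false
set_option linter.unusedSectionVars false

open MeasureTheory Filter Topology Finset
open scoped ENNReal

namespace Pool.Agent.K1H28.ZO

/-- the one-sided shift -/
def sh1 (w : ℕ → Bool) : ℕ → Bool := fun n => w (n + 1)

/-- every ergodic measure on the binary words gives positive probability to convergence -/
def Bin (ν : ℕ → ℕ) : Prop := ∀ m : Measure (ℕ → Bool), IsProbabilityMeasure m → Ergodic sh1 m →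
  m {w | Cv (wav ν w)} ≠ 0

lemma sh1_meas : Measurable sh1 := measurable_pi_lambda _ fun n => measurable_pi_apply (n + 1)

lemma sh1_iter (w : ℕ → Bool) (i : ℕ) : sh1^[i] w = fun n => w (n + i) := by
  induction i with
  | zero => funext n; simp
  | succ i ih =>
    rw [Function.iterate_succ_apply', ih]
    funext n
    unfold sh1
    change w (n + 1 + i) = w (n + (i + 1))
    congr 1
    ring

lemma vl_meas : Measurable vl := measurable_from_top

lemma vl_01 (b : Bool) : 0 ≤ vl b ∧ vl b ≤ 1 := by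
  unfold vl
  split_ifs <;> norm_num

lemma wav_meas (ν : ℕ → ℕ) (k : ℕ) : Measurable fun w : ℕ → Bool => wav ν w k := by
  unfold wav
  refine Measurable.const_mul (Finset.measurable_fun_sum _ fun n _ => ?_) _
  exact ((vl_meas.comp (measurable_pi_apply n)).mul (vl_meas.comp (measurable_pi_apply (2 * n)))).mul
    (vl_meas.comp (measurable_pi_apply (3 * n)))

lemma wav_sh1 (ν : ℕ → ℕ) (w : ℕ → Bool) :
    wav ν w = av ν sh1 (fun w => vl (w 0)) (fun w => vl (w 0)) (fun w => vl (w 0)) w := by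
  funext k
  unfold wav av
  simp only [sh1_iter, zero_add]

lemma wav_shE (ν : ℕ → ℕ) (w : ℤ → Bool) :
    wav ν (ps w) = av ν (shE Bool) (fun w => vl (w 0)) (fun w => vl (w 0)) (fun w => vl (w 0)) w := by
  funext k
  unfold wav av ps
  simp only [shE_iter, zero_add]

lemma name_meas {X : Type*} [MeasurableSpace X] {T : X → X} (hT : Measurable T) {A : Set X}
    (hA : MeasurableSet A) : Measurable (name T A) := by
  refine measurable_pi_lambda _ fun n => ?_
  classical
  refine measurable_to_bool ?_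
  have e : (fun x => name T A x n) ⁻¹' {true} = T^[n] ⁻¹' A := by
    ext x
    unfold name
    rw [Set.mem_preimage, Set.mem_singleton_iff, decide_eq_true_iff, Set.mem_preimage]
  rw [e]
  exact (hT.iterate n) hA

lemma name_semi {X : Type*} (T : X → X) (A : Set X) : Function.Semiconj (name T A) T sh1 := by
  intro x
  have h := name_shift T A x 1
  rw [Function.iterate_one] at h
  rw [← h]
  funext n
  unfold sh1
  rw [Nat.add_comm]

theorem sampling {ν : ℕ → ℕ} (hν : Tendsto ν atTop atTop) {Ω : Type} [MeasurableSpace Ω]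
    [StandardBorelSpace Ω] {μ : Measure Ω} [IsProbabilityMeasure μ] (T : Ω ≃ᵐ Ω)
    (hT : MeasurePreserving T μ μ) {f : Ω → ℝ} (hf : Measurable f) (hf01 : ∀ x, 0 ≤ f x ∧ f x ≤ 1)
    (hd : ∀ᵐ x ∂μ, ¬ Cv (av ν T f f f x)) :
    ∃ m : Measure (ℕ → Bool), IsProbabilityMeasure m ∧ Ergodic sh1 m ∧ ∀ᵐ w ∂m, ¬ Cv (wav ν w) := by
  set P : Measure (Ω × (ℤ → ℝ)) := μ.prod (Measure.infinitePi fun _ : ℤ => lam) with hP
  let S : (Ω × (ℤ → ℝ)) ≃ᵐ (Ω × (ℤ → ℝ)) := MeasurableEquiv.prodCongr T (shE ℝ)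
  have hS : MeasurePreserving S P P := hT.prod (shE_mp lam)
  have hSi : ∀ (n : ℕ) (y : Ω × (ℤ → ℝ)), S^[n] y = (T^[n] y.1, fun j => y.2 (j + n)) := by
    intro n y
    have e : (⇑S : Ω × (ℤ → ℝ) → Ω × (ℤ → ℝ)) = Prod.map T (shE ℝ) := rfl
    rw [e, Prod.map_iterate, Prod.map_apply', shE_iter]
  set A : Set (Ω × (ℤ → ℝ)) := {y | y.2 0 ≤ f y.1} with hA
  have hAm : MeasurableSet A :=
    measurableSet_le ((measurable_pi_apply 0).comp measurable_snd) (hf.comp measurable_fst)
  have hind : ∀ (n : ℕ) (y : Ω × (ℤ → ℝ)), ind A (S^[n] y) = xi (fun k => f (T^[k] y.1)) y.2 n := by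
    intro n y
    rw [hSi]
    unfold xi
    by_cases h : y.2 n ≤ f (T^[n] y.1)
    · rw [if_pos h, ind_mem]
      change y.2 (0 + (n : ℤ)) ≤ f (T^[n] y.1)
      rwa [zero_add]
    · rw [if_neg h, ind_notMem]
      intro h'
      apply h
      change y.2 (0 + (n : ℤ)) ≤ f (T^[n] y.1) at h'
      rwa [zero_add] at h'
  have hindm : Measurable (ind A) := measurable_const.indicator hAm
  -- the averages of the sampled set are close to the averages of the function
  set Df : ℕ → Ω × (ℤ → ℝ) → ℝ := fun N y => (N : ℝ)⁻¹ * ∑ n ∈ Icc 1 N,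
    (ind A (S^[n] y) * ind A (S^[2 * n] y) * ind A (S^[3 * n] y) -
      f (T^[n] y.1) * f (T^[2 * n] y.1) * f (T^[3 * n] y.1)) with hDf
  have hDfm : ∀ N, Measurable (Df N) := by
    intro N
    refine Measurable.const_mul (Finset.measurable_fun_sum _ fun n _ => Measurable.sub ?_ ?_) _
    · exact ((hindm.comp (S.measurable.iterate _)).mul (hindm.comp (S.measurable.iterate _))).mul
        (hindm.comp (S.measurable.iterate _))
    · exact (((hf.comp (T.measurable.iterate _)).comp measurable_fst).mul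
        ((hf.comp (T.measurable.iterate _)).comp measurable_fst)).mul
        ((hf.comp (T.measurable.iterate _)).comp measurable_fst)
  have hae : ∀ᵐ y ∂P, Tendsto (fun N => Df N y) atTop (𝓝 0) := by
    rw [hP, Measure.ae_prod_iff_ae_ae (measurableSet_tendsto (𝓝 0) hDfm)]
    refine Eventually.of_forall fun x => ?_
    have h1 := sample_ae (a := fun k => f (T^[k] x)) (fun n => hf01 _)
    filter_upwards [h1] with u hu
    refine hu.congr fun N => ?_
    rw [hDf]
    simp only [hind]
  have hlift : ∀ᵐ y ∂P, ¬ Cv (av ν T f f f y.1) := Measure.quasiMeasurePreserving_fst.ae hd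
  have hdiv : ∀ᵐ y ∂P, ¬ Cv (av ν S (ind A) (ind A) (ind A) y) := by
    filter_upwards [hae, hlift] with y h1 h2 hc
    apply h2
    obtain ⟨L, hL⟩ := hc
    refine ⟨L - 0, (hL.sub (h1.comp hν)).congr fun k => ?_⟩
    rw [Function.comp_apply, hDf]
    unfold av
    simp only
    rw [← mul_sub, ← Finset.sum_sub_distrib]
    congr 1
    refine Finset.sum_congr rfl fun n _ => ?_
    ring
  obtain ⟨P', hP', he, had⟩ := erg_full P S hS hdiv
  have hnm := name_meas S.measurable hAm
  refine ⟨P'.map (name S A), Measure.isProbabilityMeasure_map hnm.aemeasurable,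
    MeasurePreserving.ergodic_of_ergodic_semiconj ⟨hnm, rfl⟩ he sh1_meas (name_semi S A), ?_⟩
  refine (ae_map_iff (p := fun w => ¬ Cv (wav ν w)) hnm.aemeasurable
    (cv_measurableSet (wav_meas ν)).compl).2 ?_
  filter_upwards [had] with y hy
  rwa [wav_name]

theorem q1_of_bin {ν : ℕ → ℕ} (hν : Tendsto ν atTop atTop) (H : Bin ν) : Q1 ν := by
  by_contra hq
  have hfin : ¬ Fini ν := fun h => hq (q1_of_trip (trip_of_dset (dset_of_fini h)))
  obtain ⟨m₁, hm₁, hi, hD⟩ := exists_two hfin
  have hDm : MeasurableSet {w : ℤ → Bool | ¬ Cv (wav ν (ps w))} :=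
    (cv_measurableSet (F := fun w : ℤ → Bool => wav ν (ps w)) fun k => (wav_meas ν k).comp ps_meas).compl
  have hi' : MeasurePreserving (shE Bool) m₁ m₁ := hi
  obtain ⟨m₂, hm₂, he, hD₂⟩ := erg_pos m₁ (shE Bool) hi' hDm hD
  have hu : Measurable fun w : ℤ → Bool => vl (w 0) := vl_meas.comp (measurable_pi_apply 0)
  obtain ⟨f, hf, hf01, hdf⟩ := diag_fun (ν := ν) he hu (fun w => (vl_01 _).1) (fun w => (vl_01 _).2) (by
    intro hc
    apply hD₂
    have h1 : ∀ᵐ w ∂m₂, w ∉ {w : ℤ → Bool | ¬ Cv (wav ν (ps w))} := by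
      filter_upwards [hc] with w hw
      rw [not_not, wav_shE]
      exact hw
    rw [ae_iff] at h1
    simpa using h1)
  obtain ⟨m, hm, hme, hmd⟩ := sampling hν (shE Bool) he.toMeasurePreserving hf hf01 hdf
  exact H m hm hme (by rw [ae_iff] at hmd; simpa using hmd)

theorem bin_of_q1 {ν : ℕ → ℕ} (H : Q1 ν) : Bin ν := by
  intro m hm he h0
  have hu : Measurable fun w : ℕ → Bool => vl (w 0) := vl_meas.comp (measurable_pi_apply 0)
  have hL : MemLp (fun w : ℕ → Bool => vl (w 0)) ⊤ m :=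
    MemLp.of_bound hu.aestronglyMeasurable 1 (Eventually.of_forall fun w => by
      rw [Real.norm_eq_abs, abs_of_nonneg (vl_01 _).1]
      exact (vl_01 _).2)
  have h1 := H (ℕ → Bool) m sh1 he.toMeasurePreserving _ _ _ hL hL hL
  have h2 : ∀ᵐ w ∂m, False := by
    have h3 : ∀ᵐ w ∂m, w ∉ {w : ℕ → Bool | Cv (wav ν w)} := by
      rw [ae_iff]
      simpa using h0
    filter_upwards [h1, h3] with w h4 h5
    apply h5
    rw [wav_sh1]
    exact h4
  exact (h2.exists).elim fun _ h => h

theorem fini_of_q1 {ν : ℕ → ℕ} (H : Q1 ν) : Fini ν := by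
  by_contra hfin
  obtain ⟨m, hm, hi, hD⟩ := exists_two hfin
  have hi' : MeasurePreserving (shE Bool) m m := hi
  have hu : Measurable fun w : ℤ → Bool => vl (w 0) := vl_meas.comp (measurable_pi_apply 0)
  have hL : MemLp (fun w : ℤ → Bool => vl (w 0)) ⊤ m :=
    MemLp.of_bound hu.aestronglyMeasurable 1 (Eventually.of_forall fun w => by
      rw [Real.norm_eq_abs, abs_of_nonneg (vl_01 _).1]
      exact (vl_01 _).2)
  have h1 := H (ℤ → Bool) m (shE Bool) hi' _ _ _ hL hL hL
  apply hD
  have h3 : ∀ᵐ w ∂m, w ∉ {w : ℤ → Bool | ¬ Cv (wav ν (ps w))} := by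
    filter_upwards [h1] with w hw
    rw [not_not, wav_shE]
    exact hw
  rw [ae_iff] at h3
  simpa using h3

theorem q1_of_fini {ν : ℕ → ℕ} (H : Fini ν) : Q1 ν := q1_of_trip (trip_of_dset (dset_of_fini H))

end Pool.Agent.K1H28.ZO
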