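import Pool.Agent.W761.Tail.Slln
import Pool.Agent.K1H28.ZO.Erg
import Pool.Agent.K1H28.ZO.Diag

/-!
# Random sampling of a function by a set
-/

set_option autoImplicit false
set_option linter.unusedSectionVars false

open MeasureTheory Filter Topology Finset
open scoped ENNReal ComplexConjugate

namespace Pool.Agent.K1H28.ZO

section Shift

/-- the shift of two-sided sequences -/
def shE (K : Type) [MeasurableSpace K] : (ℤ → K) ≃ᵐ (ℤ → K) where
  toFun w n := w (n + 1)
  invFun w n := w (n - 1)
  left_inv w := by funext n; simp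
  right_inv w := by funext n; simp
  measurable_toFun := measurable_pi_lambda _ fun n => measurable_pi_apply (n + 1)
  measurable_invFun := measurable_pi_lambda _ fun n => measurable_pi_apply (n - 1)

lemma shE_iter {K : Type} [MeasurableSpace K] (w : ℤ → K) (i : ℕ) : (shE K)^[i] w = fun n => w (n + i) := by
  induction i with
  | zero => funext n; simp
  | succ i ih =>
    rw [Function.iterate_succ_apply', ih]
    funext n
    change w (n + 1 + i) = w (n + ((i + 1 : ℕ) : ℤ))
    push_cast
    congr 1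
    ring

lemma shE_mp {K : Type} [MeasurableSpace K] (ρ : Measure K) [IsProbabilityMeasure ρ] :
    MeasurePreserving (shE K) (Measure.infinitePi fun _ : ℤ => ρ) (Measure.infinitePi fun _ : ℤ => ρ) := by
  refine ⟨(shE K).measurable, ?_⟩
  apply Measure.eq_infinitePi
  intro s t ht
  rw [Measure.map_apply (shE K).measurable (MeasurableSet.pi s.countable_toSet fun j _ => ht j)]
  have hset : (shE K) ⁻¹' (Set.pi s t) =
      Set.pi (s.map (addRightEmbedding (1 : ℤ)) : Finset ℤ) (fun j => t (j - 1)) := by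
    ext w
    simp only [Set.mem_preimage, Set.mem_pi, Finset.mem_coe, Finset.mem_map, addRightEmbedding_apply,
      forall_exists_index, and_imp, forall_apply_eq_imp_iff₂]
    refine forall₂_congr fun j _ => ?_
    rw [add_sub_cancel_right]
    exact Iff.rfl
  rw [hset, Measure.infinitePi_pi _ fun j _ => ht _, Finset.prod_map]
  refine Finset.prod_congr rfl fun i _ => ?_
  rw [addRightEmbedding_apply, add_sub_cancel_right]

end Shift

section Resample

variable {K : Type} [MeasurableSpace K]

lemma mp_upd (ρ : Measure K) [IsProbabilityMeasure ρ] (i : ℤ) :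
    MeasurePreserving (fun p : (ℤ → K) × K => Function.update p.1 i p.2)
      ((Measure.infinitePi (fun _ : ℤ => ρ)).prod ρ) (Measure.infinitePi (fun _ : ℤ => ρ)) := by
  have hm : Measurable (fun p : (ℤ → K) × K => Function.update p.1 i p.2) := by
    rw [measurable_pi_iff]
    intro j
    by_cases h : j = i
    · subst h
      simp only [Function.update_self]
      exact measurable_snd
    · simp only [Function.update_of_ne h]
      exact (measurable_pi_apply j).comp measurable_fst
  refine ⟨hm, ?_⟩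
  apply Measure.eq_infinitePi
  intro s t ht
  rw [Measure.map_apply hm (MeasurableSet.pi s.countable_toSet fun j _ => ht j)]
  have hset : (fun p : (ℤ → K) × K => Function.update p.1 i p.2) ⁻¹' (Set.pi s t) =
      (Set.pi (s.erase i : Finset ℤ) t) ×ˢ (if i ∈ s then t i else Set.univ) := by
    ext p
    simp only [Set.mem_preimage, Set.mem_pi, Finset.mem_coe, Set.mem_prod, Finset.mem_erase]
    constructor
    · intro h
      refine ⟨fun j hj => ?_, ?_⟩
      · have := h j hj.2
        rwa [Function.update_of_ne hj.1] at this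
      · split_ifs with hi
        · have := h i hi
          rwa [Function.update_self] at this
        · trivial
    · rintro ⟨h1, h2⟩ j hj
      by_cases hji : j = i
      · subst hji
        rw [if_pos hj] at h2
        rwa [Function.update_self]
      · rw [Function.update_of_ne hji]
        exact h1 j ⟨hji, hj⟩
  rw [hset, Measure.prod_prod, Measure.infinitePi_pi _ fun j _ => ht j]
  split_ifs with hi
  · rw [Finset.prod_erase_mul _ _ hi]
  · rw [measure_univ, mul_one, Finset.erase_eq_of_notMem hi]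

lemma int_resample (ρ : Measure K) [IsProbabilityMeasure ρ] (i : ℤ) (F G : (ℤ → K) → ℝ)
    (hF : Measurable F) (hG : Measurable G) (hFb : ∀ θ, |F θ| ≤ 1) (hGb : ∀ θ, |G θ| ≤ 1)
    (hGi : ∀ θ κ, G (Function.update θ i κ) = G θ)
    (hFi : ∀ θ, ∫ κ, F (Function.update θ i κ) ∂ρ = 0) :
    ∫ θ, G θ * F θ ∂(Measure.infinitePi (fun _ : ℤ => ρ)) = 0 := by
  have hmp := mp_upd ρ i
  have hFG : Measurable (fun θ => G θ * F θ) := hG.mul hF
  rw [← hmp.map_eq, integral_map hmp.measurable.aemeasurable hFG.aestronglyMeasurable, integral_prod]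
  · have : ∀ θ : ℤ → K, ∫ κ, G (Function.update θ i κ) * F (Function.update θ i κ) ∂ρ = 0 := by
      intro θ
      simp only [hGi]
      rw [integral_const_mul, hFi, mul_zero]
    simp only [this, integral_zero]
  · refine Integrable.of_bound (hFG.comp hmp.measurable).aestronglyMeasurable (1 * 1) ?_
    filter_upwards with p
    rw [Real.norm_eq_abs, abs_mul]
    exact mul_le_mul (hGb _) (hFb _) (abs_nonneg _) zero_le_one

end Resample

/-- the uniform measure -/
noncomputable def lam : Measure ℝ := volume.restrict (Set.Icc (0 : ℝ) 1)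

instance lam_prob : IsProbabilityMeasure lam := by
  constructor
  unfold lam
  rw [Measure.restrict_apply_univ, Real.volume_Icc]
  simp

lemma lam_int {a : ℝ} (h0 : 0 ≤ a) (h1 : a ≤ 1) : ∫ κ, (if κ ≤ a then (1 : ℝ) else 0) ∂lam = a := by
  have e : (fun κ : ℝ => if κ ≤ a then (1 : ℝ) else 0) = (Set.Iic a).indicator fun _ => 1 := by
    funext κ
    by_cases h : κ ≤ a
    · rw [if_pos h, Set.indicator_of_mem (Set.mem_Iic.2 h)]
    · rw [if_neg h, Set.indicator_of_notMem (fun h' => h (Set.mem_Iic.1 h'))]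
  rw [e, integral_indicator measurableSet_Iic, setIntegral_const, smul_eq_mul, mul_one]
  unfold lam
  rw [Measure.real, Measure.restrict_apply measurableSet_Iic]
  have e2 : Set.Iic a ∩ Set.Icc (0 : ℝ) 1 = Set.Icc 0 a := by
    ext t
    simp only [Set.mem_inter_iff, Set.mem_Iic, Set.mem_Icc]
    constructor
    · rintro ⟨h2, h3, _⟩; exact ⟨h3, h2⟩
    · rintro ⟨h2, h3⟩; exact ⟨h3, h2, h3.trans h1⟩
  rw [e2, Real.volume_Icc, sub_zero, ENNReal.toReal_ofReal h0]

/-- the sampled sequence -/
noncomputable def xi (a : ℕ → ℝ) (u : ℤ → ℝ) (n : ℕ) : ℝ := if u n ≤ a n then 1 else 0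

lemma xi_abs (a : ℕ → ℝ) (u : ℤ → ℝ) (n : ℕ) : |xi a u n| ≤ 1 := by
  unfold xi
  split_ifs <;> simp

lemma xi_meas (a : ℕ → ℝ) (n : ℕ) : Measurable fun u => xi a u n := by
  unfold xi
  exact Measurable.ite (measurableSet_le (measurable_pi_apply _) measurable_const) measurable_const
    measurable_const

lemma xi_upd (a : ℕ → ℝ) (u : ℤ → ℝ) {n m : ℕ} (h : n ≠ m) (κ : ℝ) :
    xi a (Function.update u (m : ℤ) κ) n = xi a u n := by
  unfold xi
  rw [Function.update_of_ne (by exact_mod_cast h)]

lemma sum_shift (f : ℕ → ℝ) (N : ℕ) : ∑ n ∈ range N, f (n + 1) = ∑ n ∈ Icc 1 N, f n := by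
  induction N with
  | zero => simp
  | succ N ih => rw [Finset.sum_range_succ, ih, Finset.sum_Icc_succ_top (by omega)]

lemma xi_sub_abs {a : ℕ → ℝ} (ha : ∀ n, 0 ≤ a n ∧ a n ≤ 1) (u : ℤ → ℝ) (n : ℕ) :
    |xi a u n - a n| ≤ 1 := by
  have h := ha n
  unfold xi
  split_ifs <;> rw [abs_le] <;> constructor <;> linarith

lemma orth_avg {a : ℕ → ℝ} (ha : ∀ n, 0 ≤ a n ∧ a n ≤ 1) (c : ℕ) (hc : 0 < c) (G : ℕ → (ℤ → ℝ) → ℝ)
    (hG : ∀ n, Measurable (G n)) (hGb : ∀ n u, |G n u| ≤ 1)
    (hfr : ∀ n n' u κ, 0 < n → n ≤ n' → G n (Function.update u ((c * n' : ℕ) : ℤ) κ) = G n u) :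
    ∀ᵐ u ∂(Measure.infinitePi (fun _ : ℤ => lam)), Tendsto (fun N : ℕ => (N : ℝ)⁻¹ *
      ∑ n ∈ Icc 1 N, G n u * (xi a u (c * n) - a (c * n))) atTop (𝓝 0) := by
  set Z : ℕ → (ℤ → ℝ) → ℝ := fun n u => G n u * (xi a u (c * n) - a (c * n)) with hZ
  have hZm : ∀ n, Measurable (Z n) := fun n => (hG n).mul ((xi_meas a _).sub_const _)
  have hZb : ∀ n u, |Z n u| ≤ 1 := by
    intro n u
    rw [hZ]
    simp only
    rw [abs_mul]
    exact mul_le_one₀ (hGb n u) (abs_nonneg _) (xi_sub_abs ha u _)
  have horth : ∀ n n', 0 < n → n < n' →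
      ∫ u, Z n u * Z n' u ∂(Measure.infinitePi (fun _ : ℤ => lam)) = 0 := by
    intro n n' hn hnn
    refine int_resample lam ((c * n' : ℕ) : ℤ) (Z n') (Z n) (hZm n') (hZm n) (hZb n') (hZb n) ?_ ?_
    · intro u κ
      rw [hZ]
      simp only
      rw [hfr n n' u κ hn hnn.le, xi_upd a u (by
        intro h
        exact hnn.ne (Nat.eq_of_mul_eq_mul_left hc h)) κ]
    · intro u
      have e1 : ∀ κ : ℝ, Z n' (Function.update u ((c * n' : ℕ) : ℤ) κ) =
          G n' u * ((if κ ≤ a (c * n') then (1 : ℝ) else 0) - a (c * n')) := by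
        intro κ
        rw [hZ]
        simp only
        rw [hfr n' n' u κ (hn.trans hnn) le_rfl]
        unfold xi
        rw [Function.update_self]
      simp only [e1]
      rw [integral_const_mul, integral_sub, lam_int (ha _).1 (ha _).2]
      · simp
      · refine Integrable.of_bound (C := 1) ?_ (Eventually.of_forall fun κ => ?_)
        · exact (Measurable.ite measurableSet_Iic measurable_const measurable_const).aestronglyMeasurable
        · split_ifs <;> simp
      · exact integrable_const _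
  have hs := Pool.Agent.W761.Tail.slln (μ := Measure.infinitePi (fun _ : ℤ => lam))
    (Ψ := fun n u => ((Z (n + 1) u : ℝ) : ℂ)) (fun n => Complex.measurable_ofReal.comp (hZm (n + 1)))
    (C := 1) (fun n u => by
      rw [Complex.norm_real, Real.norm_eq_abs]
      exact hZb _ u) (K := 1) (fun n n' hn hnn => by
        simp only [Complex.conj_ofReal, ← Complex.ofReal_mul]
        rw [integral_complex_ofReal, horth (n + 1) (n' + 1) (by omega) (by omega), Complex.ofReal_zero])
  filter_upwards [hs] with u hu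
  have h1 := (Complex.continuous_re.tendsto 0).comp hu
  rw [Complex.zero_re] at h1
  refine h1.congr fun N => ?_
  rw [Function.comp_apply, Pool.Agent.W761.Tail.A]
  have e : ((N : ℂ)⁻¹ * ∑ n ∈ range N, ((Z (n + 1) u : ℝ) : ℂ)) =
      (((N : ℝ)⁻¹ * ∑ n ∈ range N, Z (n + 1) u : ℝ) : ℂ) := by
    push_cast
    ring
  rw [e, Complex.ofReal_re, sum_shift (fun n => Z n u)]

theorem sample_ae {a : ℕ → ℝ} (ha : ∀ n, 0 ≤ a n ∧ a n ≤ 1) :
    ∀ᵐ u ∂(Measure.infinitePi (fun _ : ℤ => lam)), Tendsto (fun N : ℕ => (N : ℝ)⁻¹ *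
      ∑ n ∈ Icc 1 N, (xi a u n * xi a u (2 * n) * xi a u (3 * n) - a n * a (2 * n) * a (3 * n)))
      atTop (𝓝 0) := by
  have haa : ∀ n, |a n| ≤ 1 := fun n => by
    rw [abs_of_nonneg (ha n).1]; exact (ha n).2
  have h3 := orth_avg ha 3 (by norm_num) (fun n u => xi a u n * xi a u (2 * n))
    (fun n => (xi_meas a _).mul (xi_meas a _)) (fun n u => by
      rw [abs_mul]
      exact mul_le_one₀ (xi_abs _ _ _) (abs_nonneg _) (xi_abs _ _ _)) (fun n n' u κ hn hnn => by
        rw [xi_upd a u (by omega) κ, xi_upd a u (by omega) κ])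
  have h2 := orth_avg ha 2 (by norm_num) (fun n u => xi a u n * a (3 * n))
    (fun n => (xi_meas a _).mul_const _) (fun n u => by
      rw [abs_mul]
      exact mul_le_one₀ (xi_abs _ _ _) (abs_nonneg _) (haa _)) (fun n n' u κ hn hnn => by
        rw [xi_upd a u (by omega) κ])
  have h1 := orth_avg ha 1 (by norm_num) (fun n _ => a (2 * n) * a (3 * n))
    (fun n => measurable_const) (fun n u => by
      rw [abs_mul]
      exact mul_le_one₀ (haa _) (abs_nonneg _) (haa _)) (fun n n' u κ hn hnn => rfl)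
  filter_upwards [h1, h2, h3] with u k1 k2 k3
  have h4 := (k3.add k2).add k1
  rw [add_zero, add_zero] at h4
  refine h4.congr fun N => ?_
  rw [← mul_add, ← mul_add, ← Finset.sum_add_distrib, ← Finset.sum_add_distrib]
  congr 1
  refine Finset.sum_congr rfl fun n _ => ?_
  rw [one_mul]
  ring

end Pool.Agent.K1H28.ZO
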